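import Mathlib

/-!
# Definitions for the problem on weak-star closed Chebyshev subspaces of finite codimension
-/

set_option autoImplicit false

namespace Pool.Agent.helper33.Cheb

/-- `HasChebyshev 𝕜 E n`: the dual `E*` of the normed space `E` contains a `σ(E*, E)`-closed linear
subspace `Γ` of codimension `n` (i.e. `dim (E* / Γ) = n`) which is a Chebyshev subspace: every
`f ∈ E*` has exactly one best approximation in `Γ`. -/
def HasChebyshev (𝕜 : Type*) [RCLike 𝕜] (E : Type*) [NormedAddCommGroup E] [NormedSpace 𝕜 E]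
    (n : ℕ) : Prop :=
  ∃ Γ : Submodule 𝕜 (StrongDual 𝕜 E),
    IsClosed (WeakDual.toStrongDual ⁻¹' (Γ : Set (StrongDual 𝕜 E)) : Set (WeakDual 𝕜 E)) ∧
    Module.rank 𝕜 (StrongDual 𝕜 E ⧸ Γ) = n ∧
    ∀ f : StrongDual 𝕜 E, ∃! g : StrongDual 𝕜 E,
      g ∈ Γ ∧ ‖f - g‖ = Metric.infDist f (Γ : Set (StrongDual 𝕜 E))

/-- The annihilator `{f ∈ E* : f (x₁) = ... = f (xₙ) = 0}` of a tuple of vectors of `E`. -/
def annih {𝕜 : Type*} [RCLike 𝕜] {E : Type*} [NormedAddCommGroup E] [NormedSpace 𝕜 E]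
    {n : ℕ} (x : Fin n → E) : Submodule 𝕜 (StrongDual 𝕜 E) where
  carrier := {f | ∀ i, f (x i) = 0}
  add_mem' := by
    intro f g hf hg i
    rw [add_apply, hf i, hg i, add_zero]
  zero_mem' := by
    intro i
    rfl
  smul_mem' := by
    intro c f hf i
    rw [smul_apply, hf i, smul_zero]

/-- The space of the finitely supported sequences with the `ℓ¹` norm, as a (non-closed) linear
subspace of `ℓ¹`: the linear span of the unit vectors. -/
noncomputable def finSupp (𝕜 : Type*) [RCLike 𝕜] : Submodule 𝕜 (lp (fun _ : ℕ => 𝕜) 1) :=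
  Submodule.span 𝕜 (Set.range fun i : ℕ => (lp.single 1 i (1 : 𝕜) : lp (fun _ : ℕ => 𝕜) 1))

end Pool.Agent.helper33.Cheb
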