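import Mathlib
import Pool.Agent.helper33.ChebDefs

set_option autoImplicit false

open Set Filter

namespace Pool.Agent.helper33.Cheb

section General

variable {𝕜 : Type*} [RCLike 𝕜] {E : Type*} [NormedAddCommGroup E] [NormedSpace 𝕜 E]

/-- If a sequence of functionals is eventually zero at every point, then the functionals of the
sequence eventually belong to any given weak-star closed subspace of finite codimension. -/
lemma eventually_mem (δ : ℕ → StrongDual 𝕜 E) (hev : ∀ x, ∀ᶠ m in atTop, δ m x = 0)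
    (Γ : Submodule 𝕜 (StrongDual 𝕜 E))
    (hcl : IsClosed (WeakDual.toStrongDual ⁻¹' (Γ : Set (StrongDual 𝕜 E)) : Set (WeakDual 𝕜 E)))
    {n : ℕ} (hn : Module.rank 𝕜 (StrongDual 𝕜 E ⧸ Γ) = n) : ∀ᶠ m in atTop, δ m ∈ Γ := by
  classical
  let Γw : Submodule 𝕜 (WeakDual 𝕜 E) :=
    Γ.comap (WeakDual.toStrongDual : WeakDual 𝕜 E ≃ₗ[𝕜] StrongDual 𝕜 E).toLinearMap
  have hΓw : IsClosed (Γw : Set (WeakDual 𝕜 E)) := hcl
  have _ := hΓw
  let eq : (WeakDual 𝕜 E ⧸ Γw) ≃ₗ[𝕜] (StrongDual 𝕜 E ⧸ Γ) :=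
    Submodule.Quotient.equiv Γw Γ (WeakDual.toStrongDual : WeakDual 𝕜 E ≃ₗ[𝕜] StrongDual 𝕜 E)
      (by
        ext f
        simp only [Submodule.mem_map, Γw, Submodule.mem_comap]
        constructor
        · rintro ⟨y, hy, rfl⟩
          exact hy
        · intro hf
          exact ⟨WeakDual.toStrongDual.symm f, by simpa using hf, by simp⟩)
  have hfinΓ : FiniteDimensional 𝕜 (StrongDual 𝕜 E ⧸ Γ) := by
    apply Module.rank_lt_aleph0_iff.1
    rw [hn]
    exact Cardinal.natCast_lt_aleph0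
  have hfin : FiniteDimensional 𝕜 (WeakDual 𝕜 E ⧸ Γw) := eq.symm.finiteDimensional
  have hT2 : T2Space (WeakDual 𝕜 E ⧸ Γw) := inferInstance
  let b := Module.finBasis 𝕜 (WeakDual 𝕜 E ⧸ Γw)
  have hcoord : ∀ j, ∀ᶠ m in atTop, b.coord j (Submodule.Quotient.mk (StrongDual.toWeakDual (δ m))) = 0 := by
    intro j
    by_contra hcon
    rw [not_eventually] at hcon
    set L : WeakDual 𝕜 E → 𝕜 := fun f => b.coord j (Submodule.Quotient.mk f) with hL
    have hLc : Continuous L := by
      have h1 : Continuous (b.coord j) := LinearMap.continuous_of_finiteDimensional _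
      exact h1.comp continuous_quot_mk
    have hLs : ∀ (t : 𝕜) (f : WeakDual 𝕜 E), L (t • f) = t * L f := by
      intro t f
      simp only [hL]
      rw [Submodule.Quotient.mk_smul, map_smul, smul_eq_mul]
    let F : ℕ → WeakDual 𝕜 E := fun m =>
      (L (StrongDual.toWeakDual (δ m)))⁻¹ • StrongDual.toWeakDual (δ m)
    have hF : Tendsto F atTop (nhds 0) := by
      rw [tendsto_iff_forall_eval_tendsto_topDualPairing]
      intro x
      have h0 : ∀ᶠ m in atTop, (topDualPairing 𝕜 E (F m)) x = (topDualPairing 𝕜 E 0) x := by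
        filter_upwards [hev x] with m hm
        change (L (StrongDual.toWeakDual (δ m)))⁻¹ • (δ m x) = 0
        rw [hm, smul_zero]
      exact tendsto_const_nhds.congr' (h0.mono fun m hm => hm.symm)
    have hLF : Tendsto (fun m => L (F m)) atTop (nhds (L 0)) := (hLc.tendsto 0).comp hF
    have hL0 : L 0 = 0 := by
      have := hLs 0 0
      rwa [zero_smul, zero_mul] at this
    rw [hL0] at hLF
    have hlt : ∀ᶠ m in atTop, ‖L (F m)‖ < 1 := by
      have := hLF.norm
      rw [norm_zero] at this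
      exact this.eventually_lt_const one_pos
    obtain ⟨m, hm1, hm2⟩ := (hcon.and_eventually hlt).exists
    have hne : L (StrongDual.toWeakDual (δ m)) ≠ 0 := hm1
    have : L (F m) = 1 := by
      rw [hLs, inv_mul_cancel₀ hne]
    rw [this, norm_one] at hm2
    exact lt_irrefl _ hm2
  have hall : ∀ᶠ m in atTop, ∀ j, b.coord j (Submodule.Quotient.mk (StrongDual.toWeakDual (δ m))) = 0 :=
    eventually_all.2 hcoord
  filter_upwards [hall] with m hm
  have h0 : (Submodule.Quotient.mk (StrongDual.toWeakDual (δ m)) : WeakDual 𝕜 E ⧸ Γw) = 0 :=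
    b.forall_coord_eq_zero_iff.1 hm
  rw [Submodule.Quotient.mk_eq_zero] at h0
  exact h0

/-- The general obstruction. -/
lemma not_hasChebyshev (e : ℕ → E) (δ : ℕ → StrongDual 𝕜 E) (hδe : ∀ m, δ m (e m) = 1)
    (hev : ∀ x, ∀ᶠ m in atTop, δ m x = 0)
    (hnorm : ∀ x m, ‖x - δ m x • e m‖ + ‖δ m x‖ ≤ ‖x‖) {n : ℕ} (hn : 1 ≤ n) :
    ¬ HasChebyshev 𝕜 E n := by
  rintro ⟨Γ, hcl, hrank, hcheb⟩
  obtain ⟨m, hm⟩ := (eventually_mem δ hev Γ hcl hrank).exists
  -- a functional outside `Γ`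
  obtain ⟨f, hf⟩ : ∃ f : StrongDual 𝕜 E, f ∉ Γ := by
    by_contra hcon
    push Not at hcon
    have htop : Γ = ⊤ := by
      ext f
      simp [hcon f]
    rw [htop] at hrank
    have : Subsingleton (StrongDual 𝕜 E ⧸ (⊤ : Submodule 𝕜 (StrongDual 𝕜 E))) := inferInstance
    rw [rank_subsingleton'] at hrank
    have : (n : Cardinal) = ((0 : ℕ) : Cardinal) := by rw [← hrank]; simp
    have := Nat.cast_injective this
    omega
  obtain ⟨g0, ⟨hg0, hg0n⟩, huniq⟩ := hcheb f
  set d : ℝ := Metric.infDist f (Γ : Set (StrongDual 𝕜 E)) with hd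
  set k : StrongDual 𝕜 E := f - g0 with hk
  have hkne : k ≠ 0 := by
    intro h0
    apply hf
    have : f = g0 := sub_eq_zero.1 h0
    rw [this]
    exact hg0
  have hdpos : 0 < d := by
    rw [← hg0n]
    exact norm_pos_iff.2 hkne
  -- the competitors
  let K : ℝ → StrongDual 𝕜 E := fun t => k - k (e m) • δ m + (t : 𝕜) • δ m
  have hK : ∀ t : ℝ, |t| ≤ d → ‖K t‖ ≤ d := by
    intro t ht
    refine ContinuousLinearMap.opNorm_le_bound _ hdpos.le ?_
    intro x
    have h1 : K t x = k (x - δ m x • e m) + (t : 𝕜) * δ m x := by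
      simp only [K, add_apply, sub_apply, smul_apply, smul_eq_mul, map_sub, map_smul]
      ring
    rw [h1]
    calc ‖k (x - δ m x • e m) + (t : 𝕜) * δ m x‖
        ≤ ‖k (x - δ m x • e m)‖ + ‖(t : 𝕜) * δ m x‖ := norm_add_le _ _
      _ ≤ d * ‖x - δ m x • e m‖ + d * ‖δ m x‖ := by
          apply add_le_add
          · rw [← hg0n]
            exact k.le_opNorm _
          · rw [norm_mul, RCLike.norm_ofReal]
            exact mul_le_mul_of_nonneg_right ht (norm_nonneg _)
      _ = d * (‖x - δ m x • e m‖ + ‖δ m x‖) := by ring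
      _ ≤ d * ‖x‖ := mul_le_mul_of_nonneg_left (hnorm x m) hdpos.le
  have hbest : ∀ t : ℝ, |t| ≤ d → f - K t ∈ Γ ∧ ‖f - (f - K t)‖ = d := by
    intro t ht
    have hmem : f - K t ∈ Γ := by
      have e1 : f - K t = g0 + (k (e m) - (t : 𝕜)) • δ m := by
        simp only [K, hk]
        module
      rw [e1]
      exact Γ.add_mem hg0 (Γ.smul_mem _ hm)
    refine ⟨hmem, le_antisymm ?_ ?_⟩
    · rw [sub_sub_cancel]
      exact hK t ht
    · have := Metric.infDist_le_dist_of_mem (x := f) (s := (Γ : Set (StrongDual 𝕜 E))) hmem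
      rw [dist_eq_norm] at this
      exact this
  have h1 := huniq _ (hbest 0 (by simpa using hdpos.le))
  have h2 := huniq _ (hbest d (by rw [abs_of_pos hdpos]))
  have h3 : K 0 = K d := by
    have := h1.trans h2.symm
    exact sub_right_injective this
  have h4 := congrArg (fun F => F (e m)) h3
  simp only [K, add_apply, sub_apply, smul_apply, smul_eq_mul, hδe] at h4
  have h5 : (d : 𝕜) = 0 := by
    have : ((0 : ℝ) : 𝕜) = 0 := RCLike.ofReal_zero
    rw [this] at h4
    linear_combination -h4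
  rw [RCLike.ofReal_eq_zero] at h5
  exact hdpos.ne' h5

end General

section Example

variable (𝕜 : Type*) [RCLike 𝕜]

instance : TopologicalSpace.SeparableSpace (finSupp 𝕜) := by
  apply TopologicalSpace.IsSeparable.separableSpace
  exact (countable_range _).isSeparable.span

/-- The unit vectors. -/
noncomputable def unitVec (m : ℕ) : finSupp 𝕜 :=
  ⟨lp.single 1 m (1 : 𝕜), Submodule.subset_span (mem_range_self m)⟩

/-- The coordinate functionals. -/
noncomputable def coordFun (m : ℕ) : StrongDual 𝕜 (finSupp 𝕜) :=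
  (lp.evalCLM 𝕜 (fun _ : ℕ => 𝕜) 1 m).comp (finSupp 𝕜).subtypeL

lemma coordFun_apply (m : ℕ) (x : finSupp 𝕜) :
    coordFun 𝕜 m x = ((x : lp (fun _ : ℕ => 𝕜) 1) : ℕ → 𝕜) m := rfl

lemma coordFun_unitVec (m k : ℕ) : coordFun 𝕜 m (unitVec 𝕜 k) = if m = k then 1 else 0 := by
  rw [coordFun_apply]
  change ((lp.single 1 k (1 : 𝕜) : lp (fun _ : ℕ => 𝕜) 1) : ℕ → 𝕜) m = _
  rw [lp.single_apply]
  by_cases h : m = k
  · subst h
    simp
  · simp [h]

lemma coordFun_eventually (x : finSupp 𝕜) : ∀ᶠ m in atTop, coordFun 𝕜 m x = 0 := by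
  obtain ⟨x, hx⟩ := x
  simp only [coordFun_apply]
  induction hx using Submodule.span_induction with
  | mem x h =>
    obtain ⟨i, rfl⟩ := h
    filter_upwards [eventually_gt_atTop i] with m hm
    rw [lp.single_apply]
    simp [hm.ne']
  | zero => exact Eventually.of_forall fun m => rfl
  | add x y _ _ hx hy =>
    filter_upwards [hx, hy] with m h1 h2
    change (x : ℕ → 𝕜) m + (y : ℕ → 𝕜) m = 0
    rw [h1, h2, add_zero]
  | smul c x _ hx =>
    filter_upwards [hx] with m h1
    change c • (x : ℕ → 𝕜) m = 0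
    rw [h1, smul_zero]

lemma norm_coord (x : finSupp 𝕜) (m : ℕ) :
    ‖x - coordFun 𝕜 m x • unitVec 𝕜 m‖ + ‖coordFun 𝕜 m x‖ ≤ ‖x‖ := by
  have h := lp.norm_sub_norm_compl_sub_single (E := fun _ : ℕ => 𝕜) (p := 1) (by simp)
    (x : lp (fun _ : ℕ => 𝕜) 1) {m}
  simp only [ENNReal.toReal_one, Real.rpow_one, Finset.sum_singleton] at h
  have e1 : ((x - coordFun 𝕜 m x • unitVec 𝕜 m : finSupp 𝕜) : lp (fun _ : ℕ => 𝕜) 1)
      = (x : lp (fun _ : ℕ => 𝕜) 1) -
        lp.single 1 m (((x : lp (fun _ : ℕ => 𝕜) 1) : ℕ → 𝕜) m) := by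
    rw [Submodule.coe_sub, Submodule.coe_smul, coordFun_apply]
    congr 1
    change _ • (lp.single 1 m (1 : 𝕜) : lp (fun _ : ℕ => 𝕜) 1) = _
    rw [← lp.single_smul, smul_eq_mul, mul_one]
  rw [Submodule.coe_norm, e1, coordFun_apply, Submodule.coe_norm]
  linarith

lemma rank_finSupp : Cardinal.aleph0 ≤ Module.rank 𝕜 (finSupp 𝕜) := by
  have hli : LinearIndependent 𝕜 (unitVec 𝕜) := by
    rw [linearIndependent_iff']
    intro s g hg i hi
    have h1 := congrArg (coordFun 𝕜 i) hg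
    rw [map_sum, map_zero] at h1
    simp only [map_smul, coordFun_unitVec, smul_eq_mul, mul_ite, mul_one, mul_zero,
      Finset.sum_ite_eq, hi, if_true] at h1
    exact h1
  exact hli.aleph0_le_rank

theorem finSupp_not_hasChebyshev {n : ℕ} (hn : 1 ≤ n) : ¬ HasChebyshev 𝕜 (finSupp 𝕜) n :=
  not_hasChebyshev (unitVec 𝕜) (coordFun 𝕜) (fun m => by rw [coordFun_unitVec, if_pos rfl])
    (coordFun_eventually 𝕜) (norm_coord 𝕜) hn

end Example

end Pool.Agent.helper33.Cheb
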