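import Mathlib

/-!
# Directions of segments on the unit sphere of a finite-dimensional normed space

In a finite-dimensional real normed space `W` with a Haar measure, the set of the vectors `g`
that are differences of two points of a common face of the closed unit ball is a null set.
The proof covers the caps of height `ε` by few Macbeath regions.
-/

set_option autoImplicit false

open MeasureTheory Set
open scoped Pointwise

namespace Pool.Agent.helper33.Cheb

variable {W : Type*} [NormedAddCommGroup W] [NormedSpace ℝ W] [FiniteDimensional ℝ W]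

/-- Every nonempty compact convex set has a point `c` such that the reflected and shrunk copy of the
set with respect to `c` is contained in the set (a consequence of Helly's theorem). -/
lemma exists_center {Q : Set W} (hc : Convex ℝ Q) (hk : IsCompact Q) (hne : Q.Nonempty)
    {N : ℕ} (hN : Module.finrank ℝ W = N) (hN1 : 1 ≤ N) :
    ∃ c ∈ Q, ∀ p ∈ Q, c + (1 / (N : ℝ)) • (c - p) ∈ Q := by
  classical
  have hNpos : (0 : ℝ) < N := by exact_mod_cast hN1
  set a : ℝ := N / (N + 1) with ha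
  set b : ℝ := 1 / (N + 1) with hb
  have hab : a + b = 1 := by rw [ha, hb]; field_simp
  have ha0 : 0 < a := by positivity
  have hb0 : 0 < b := by positivity
  let F : Q → Set W := fun p => (fun q => a • q + b • (p : W)) '' Q
  have h1 : ∀ i, Convex ℝ (F i) := by
    rintro i _ ⟨q1, hq1, rfl⟩ _ ⟨q2, hq2, rfl⟩ s t hs ht hst
    refine ⟨s • q1 + t • q2, hc hq1 hq2 hs ht hst, ?_⟩
    simp only
    have : t = 1 - s := by linarith
    subst this
    module
  have h2 : ∀ i, IsCompact (F i) := fun i => hk.image (by fun_prop)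
  have h3 : ∀ I : Finset Q, I.card ≤ Module.finrank ℝ W + 1 → (⋂ i ∈ I, F i).Nonempty := by
    intro I hI
    rcases I.eq_empty_or_nonempty with rfl | ⟨i0, hi0⟩
    · simp
    rw [hN] at hI
    have hm1 : 1 ≤ I.card := Finset.card_pos.2 ⟨i0, hi0⟩
    have hIm : (I.card : ℝ) ≤ N + 1 := by exact_mod_cast hI
    set m : ℝ := (I.card : ℝ) with hm
    let w : Q → ℝ := fun i => b + (if i = i0 then (N + 1 - m) / (N + 1) else 0)
    refine ⟨∑ i ∈ I, w i • (i : W), ?_⟩
    simp only [mem_iInter]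
    intro j hj
    let w' : Q → ℝ := fun i => (if i = j then (0 : ℝ) else 1 / (N : ℝ)) +
      (if i = i0 then ((N : ℝ) + 1 - m) / (N : ℝ) else 0)
    refine ⟨∑ i ∈ I, w' i • (i : W), ?_, ?_⟩
    · apply hc.sum_mem
      · intro i _
        have : 0 ≤ (N + 1 - m) / N := div_nonneg (by linarith) hNpos.le
        have h1N : (0 : ℝ) ≤ 1 / N := by positivity
        simp only [w']
        split_ifs <;> linarith
      · simp only [w', Finset.sum_add_distrib]
        have e1 : ∑ i ∈ I, (if i = j then (0 : ℝ) else 1 / (N : ℝ)) = (m - 1) / N := by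
          have : ∀ i ∈ I, (if i = j then (0 : ℝ) else 1 / (N : ℝ))
              = 1 / (N : ℝ) - (if i = j then 1 / (N : ℝ) else 0) := by
            intro i _
            split_ifs <;> ring
          rw [Finset.sum_congr rfl this, Finset.sum_sub_distrib, Finset.sum_const, nsmul_eq_mul,
            Finset.sum_ite_eq' I j, if_pos hj]
          rw [← hm]
          ring
        rw [e1, Finset.sum_ite_eq' I i0, if_pos hi0]
        field_simp
        ring
      · intro i _
        exact i.2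
    · simp only
      have ej : (j : W) = ∑ i ∈ I, (if i = j then (1 : ℝ) else 0) • (i : W) := by
        simp [hj]
      rw [Finset.smul_sum, ej, Finset.smul_sum, ← Finset.sum_add_distrib]
      apply Finset.sum_congr rfl
      intro i _
      rw [smul_smul, smul_smul, ← add_smul]
      congr 1
      simp only [w, w', ha, hb]
      split_ifs <;> field_simp <;> ring
  obtain ⟨c, hcc⟩ := Convex.helly_theorem_compact' h1 h2 h3
  rw [mem_iInter] at hcc
  have key : ∀ p ∈ Q, c + (1 / (N : ℝ)) • (c - p) ∈ Q := by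
    intro p hp
    obtain ⟨q, hq, hqc⟩ := hcc ⟨p, hp⟩
    simp only at hqc
    have : c + (1 / (N : ℝ)) • (c - p) = q := by
      rw [← hqc]
      have e1 : (1 + 1 / (N : ℝ)) * a = 1 := by rw [ha]; field_simp
      have e2 : (1 + 1 / (N : ℝ)) * b = 1 / N := by rw [hb]; field_simp
      calc a • q + b • p + (1 / (N : ℝ)) • (a • q + b • p - p)
          = ((1 + 1 / (N : ℝ)) * a) • q + ((1 + 1 / (N : ℝ)) * b) • p - (1 / (N : ℝ)) • p := by
            module
        _ = q := by rw [e1, e2]; module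
    rw [this]
    exact hq
  obtain ⟨p0, hp0⟩ := hne
  obtain ⟨q, hq, hqc⟩ := hcc ⟨p0, hp0⟩
  refine ⟨c, ?_, key⟩
  rw [← hqc]
  exact hc hq hp0 ha0.le hb0.le hab

/-- The (centred) Macbeath region of the closed unit ball at `c`. -/
def S (c : W) : Set W := {v | ‖c + v‖ ≤ 1 ∧ ‖c - v‖ ≤ 1}

omit [NormedSpace ℝ W] [FiniteDimensional ℝ W] in
lemma S_neg {c v : W} (h : v ∈ S c) : -v ∈ S c := by
  refine ⟨?_, ?_⟩
  · rw [← sub_eq_add_neg]; exact h.2
  · rw [sub_neg_eq_add]; exact h.1

omit [FiniteDimensional ℝ W] in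
lemma S_convex (c : W) : Convex ℝ (S c) := by
  rintro v ⟨hv1, hv2⟩ w ⟨hw1, hw2⟩ s t hs ht hst
  have hball := convex_closedBall (0 : W) 1
  constructor
  · have := hball (x := c + v) (by simpa using hv1) (y := c + w) (by simpa using hw1) hs ht hst
    have e : s • (c + v) + t • (c + w) = c + (s • v + t • w) := by
      have : t = 1 - s := by linarith
      subst this
      module
    rw [e] at this
    simpa using this
  · have := hball (x := c - v) (by simpa using hv2) (y := c - w) (by simpa using hw2) hs ht hst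
    have e : s • (c - v) + t • (c - w) = c - (s • v + t • w) := by
      have : t = 1 - s := by linarith
      subst this
      module
    rw [e] at this
    simpa using this

omit [FiniteDimensional ℝ W] in
lemma S_half_sub {c v w : W} (hv : v ∈ S c) (hw : w ∈ S c) : (1 / 2 : ℝ) • (v - w) ∈ S c := by
  have := S_convex c hv (S_neg hw) (a := 1 / 2) (b := 1 / 2) (by norm_num) (by norm_num)
    (by norm_num)
  have e : (1 / 2 : ℝ) • v + (1 / 2 : ℝ) • (-w) = (1 / 2 : ℝ) • (v - w) := by module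
  rwa [e] at this

omit [NormedSpace ℝ W] [FiniteDimensional ℝ W] in
lemma S_closed (c : W) : IsClosed (S c) := by
  have h1 : IsClosed {v : W | ‖c + v‖ ≤ 1} := isClosed_le (by fun_prop) continuous_const
  have h2 : IsClosed {v : W | ‖c - v‖ ≤ 1} := isClosed_le (by fun_prop) continuous_const
  exact h1.inter h2

omit [FiniteDimensional ℝ W] in
/-- The Macbeath lemma. -/
lemma macbeath {c d s s' v : W} (hs : s ∈ S c) (hs' : s' ∈ S d)
    (h : c + (1 / 2 : ℝ) • s = d + (1 / 2 : ℝ) • s') (hv : v ∈ S c) : (1 / 3 : ℝ) • v ∈ S d := by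
  have e0 : c = d + (1 / 2 : ℝ) • s' - (1 / 2 : ℝ) • s := by rw [← h]; module
  have bound : ∀ a b e : W, ‖a‖ ≤ 1 → ‖b‖ ≤ 1 → ‖e‖ ≤ 1 →
      ‖(1 / 3 : ℝ) • a + (1 / 3 : ℝ) • b + (1 / 3 : ℝ) • e‖ ≤ 1 := by
    intro a b e ha hb he
    have h1 := norm_add_le ((1 / 3 : ℝ) • a + (1 / 3 : ℝ) • b) ((1 / 3 : ℝ) • e)
    have h2 := norm_add_le ((1 / 3 : ℝ) • a) ((1 / 3 : ℝ) • b)
    have h3 : ∀ z : W, ‖(1 / 3 : ℝ) • z‖ = 1 / 3 * ‖z‖ := by
      intro z
      rw [norm_smul, Real.norm_eq_abs, abs_of_pos (by norm_num)]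
    rw [h3, h3] at h2
    rw [h3] at h1
    linarith
  constructor
  · have e1 : d + (1 / 3 : ℝ) • v
        = (1 / 3 : ℝ) • (c + s) + (1 / 3 : ℝ) • (c + v) + (1 / 3 : ℝ) • (d - s') := by
      rw [e0]; module
    rw [e1]
    exact bound _ _ _ hs.1 hv.1 hs'.2
  · have e1 : d - (1 / 3 : ℝ) • v
        = (1 / 3 : ℝ) • (c + s) + (1 / 3 : ℝ) • (c - v) + (1 / 3 : ℝ) • (d - s') := by
      rw [e0]; module
    rw [e1]
    exact bound _ _ _ hs.1 hv.2 hs'.2

/-- The set of the differences of two points of a common face of the unit ball. -/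
def Bad (W : Type*) [NormedAddCommGroup W] [NormedSpace ℝ W] : Set W :=
  {g | ∃ (x : W →ₗ[ℝ] ℝ) (f : W), (∀ w, x w ≤ ‖w‖) ∧ ‖f‖ ≤ 1 ∧ ‖f + g‖ ≤ 1 ∧ x f = 1 ∧
    x (f + g) = 1}

/-- The cap of height `ε` in the direction `x` is contained in a multiple of a Macbeath region. -/
lemma cap_center {N : ℕ} (hN : Module.finrank ℝ W = N) (hN1 : 1 ≤ N) {ε : ℝ} (hε : 0 < ε)
    (x : W →ₗ[ℝ] ℝ) {f : W} (hf : ‖f‖ ≤ 1) (hxf : x f = 1) :
    ∃ c : W, ‖c‖ ≤ 1 ∧ 1 - ε ≤ x c ∧ ∀ p : W, ‖p‖ ≤ 1 → 1 - ε ≤ x p →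
      (1 / (N : ℝ)) • (p - c) ∈ S c := by
  have hxc : Continuous x := x.continuous_of_finiteDimensional
  set Q : Set W := {w | ‖w‖ ≤ 1} ∩ {w | 1 - ε ≤ x w} with hQ
  have hQ1 : Convex ℝ Q := by
    apply Convex.inter
    · have := convex_closedBall (0 : W) 1
      convert this using 1
      ext w
      simp
    · exact convex_halfSpace_ge x.isLinear _
  have hQ2 : IsCompact Q := by
    have h1 : IsCompact (Metric.closedBall (0 : W) 1) := isCompact_closedBall 0 1
    have h2 : {w : W | ‖w‖ ≤ 1} = Metric.closedBall (0 : W) 1 := by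
      ext w
      simp
    rw [hQ, h2]
    exact h1.inter_right (isClosed_le continuous_const hxc)
  have hQ3 : Q.Nonempty := ⟨f, hf, by simp only [mem_ofPred_eq]; linarith⟩
  obtain ⟨c, hc, hcp⟩ := exists_center hQ1 hQ2 hQ3 hN hN1
  refine ⟨c, hc.1, hc.2, ?_⟩
  intro p hp1 hp2
  have hp : p ∈ Q := ⟨hp1, hp2⟩
  constructor
  · have hNpos : (0 : ℝ) < N := by exact_mod_cast hN1
    have h1N : 1 / (N : ℝ) ≤ 1 := by
      rw [div_le_one hNpos]
      exact_mod_cast hN1
    have := hQ1 hc hp (a := 1 - 1 / (N : ℝ)) (b := 1 / (N : ℝ)) (by linarith) (by positivity)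
      (by ring)
    have e : (1 - 1 / (N : ℝ)) • c + (1 / (N : ℝ)) • p = c + (1 / (N : ℝ)) • (p - c) := by module
    rw [e] at this
    exact this.1
  · have := (hcp p hp).1
    have e : c + (1 / (N : ℝ)) • (c - p) = c - (1 / (N : ℝ)) • (p - c) := by module
    rw [e] at this
    exact this


/-- The shell `{1 - 2ε ≤ ‖w‖ ≤ 1}`. -/
def shell (W : Type*) [NormedAddCommGroup W] (ε : ℝ) : Set W := {w | 1 - 2 * ε ≤ ‖w‖ ∧ ‖w‖ ≤ 1}

variable [MeasurableSpace W] [BorelSpace W] (μ : Measure W) [μ.IsAddHaarMeasure]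

/-- The covering estimate. -/
lemma measure_bad_le {N : ℕ} (hN : Module.finrank ℝ W = N) (hN1 : 1 ≤ N) {ε : ℝ} (hε : 0 < ε) :
    μ (Bad W) ≤ ENNReal.ofReal ((12 * N) ^ N) * μ (shell W ε) := by
  classical
  have hNpos : (0 : ℝ) < N := by exact_mod_cast hN1
  let ι := {x : W →ₗ[ℝ] ℝ // (∀ w, x w ≤ ‖w‖) ∧ ∃ f : W, ‖f‖ ≤ 1 ∧ x f = 1}
  have hcen : ∀ x : ι, ∃ c : W, ‖c‖ ≤ 1 ∧ 1 - ε ≤ x.1 c ∧ ∀ p : W, ‖p‖ ≤ 1 → 1 - ε ≤ x.1 p →
      (1 / (N : ℝ)) • (p - c) ∈ S c := by
    intro x
    obtain ⟨f, hf1, hf2⟩ := x.2.2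
    exact cap_center hN hN1 hε x.1 hf1 hf2
  choose c hc1 hc2 hc3 using hcen
  let B : ι → Set W := fun x => c x +ᵥ ((1 / 2 : ℝ) • S (c x))
  have hzero : ∀ x : ι, (0 : W) ∈ S (c x) := fun x => ⟨by simpa using hc1 x, by simpa using hc1 x⟩
  have hBne : ∀ x : ι, (B x).Nonempty := by
    intro x
    exact ⟨c x +ᵥ ((1 / 2 : ℝ) • (0 : W)), vadd_mem_vadd_set (smul_mem_smul_set (hzero x))⟩
  obtain ⟨u, -, hdisj, hcov⟩ := Vitali.exists_disjoint_subfamily_covering_enlargement B univ
    (fun _ => 1) 2 (by norm_num) (by intros; norm_num) 1 (by intros; norm_num)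
    (fun x _ => hBne x)
  -- the interiors
  have hBint : ∀ x : ι, (interior (B x)).Nonempty := by
    intro x
    obtain ⟨f, hf1, hf2⟩ := x.2.2
    set p0 : W := (1 - min ε 1 / 2) • f with hp0
    set r : ℝ := min ε 1 / 2 with hr
    have hr0 : 0 < r := by positivity
    have hr1 : r ≤ 1 / 2 := by
      have := min_le_right ε 1
      linarith
    have hr2 : r ≤ ε / 2 := by
      have := min_le_left ε 1
      linarith
    have hsub : Metric.ball p0 r ⊆ {p : W | ‖p‖ ≤ 1 ∧ 1 - ε ≤ x.1 p} := by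
      intro p hp
      have hpd : ‖p - p0‖ < r := by rwa [← dist_eq_norm]
      constructor
      · have h1 : ‖p0‖ ≤ 1 - r := by
          rw [hp0, norm_smul, Real.norm_eq_abs, abs_of_nonneg (by linarith)]
          calc (1 - min ε 1 / 2) * ‖f‖ ≤ (1 - min ε 1 / 2) * 1 :=
                mul_le_mul_of_nonneg_left hf1 (by linarith)
            _ = 1 - r := by rw [hr]; ring
        have h2 : p = p0 + (p - p0) := by abel
        rw [h2]
        exact (norm_add_le _ _).trans (by linarith)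
      · have h1 : x.1 (p0 - p) ≤ ‖p0 - p‖ := x.2.1 _
        rw [map_sub, norm_sub_rev] at h1
        have h2 : x.1 p0 = 1 - r := by
          rw [hp0, map_smul, hf2, smul_eq_mul, mul_one]
        linarith
    have hopen : IsOpen (c x +ᵥ ((1 / 2 : ℝ) • ((1 / (N : ℝ)) • (-(c x) +ᵥ Metric.ball p0 r)))) := by
      apply IsOpen.vadd
      apply IsOpen.smul₀ _ (by norm_num)
      apply IsOpen.smul₀ _ (by positivity)
      exact IsOpen.vadd Metric.isOpen_ball _
    have hne : (c x +ᵥ ((1 / 2 : ℝ) • ((1 / (N : ℝ)) • (-(c x) +ᵥ Metric.ball p0 r)))).Nonempty :=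
      ((((Metric.nonempty_ball.2 hr0).vadd_set).smul_set).smul_set).vadd_set
    refine hne.mono ?_
    apply interior_maximal _ hopen
    apply vadd_set_mono
    apply smul_set_mono
    rintro _ ⟨_, ⟨p, hp, rfl⟩, rfl⟩
    have := hc3 x p (hsub hp).1 (hsub hp).2
    simp only [vadd_eq_add]
    rw [neg_add_eq_sub]
    exact this
  have hucount : u.Countable := hdisj.countable_of_nonempty_interior (fun i _ => hBint i)
  have hScl : ∀ x : ι, MeasurableSet (B x) := by
    intro x
    have h1 : IsClosed ((1 / 2 : ℝ) • S (c x)) := (S_closed (c x)).smul_of_ne_zero (by norm_num)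
    exact (h1.vadd (c x)).measurableSet
  -- covering of the bad set
  have hbad : Bad W ⊆ ⋃ y ∈ u, ((6 * N : ℝ) • S (c y)) := by
    rintro g ⟨x, f, hx, hf, hfg, hxf, hxfg⟩
    let x' : ι := ⟨x, hx, f, hf, hxf⟩
    obtain ⟨y, hyu, ⟨w, hw1, hw2⟩, -⟩ := hcov x' (mem_univ _)
    rw [mem_iUnion₂]
    refine ⟨y, hyu, ?_⟩
    have h1 := hc3 x' f hf (by change 1 - ε ≤ x f; linarith)
    have h2 := hc3 x' (f + g) hfg (by change 1 - ε ≤ x (f + g); linarith)
    have h3 := S_half_sub h2 h1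
    obtain ⟨_, ⟨s, hs, rfl⟩, hsw⟩ := hw1
    obtain ⟨_, ⟨s', hs', rfl⟩, hsw'⟩ := hw2
    have h4 := macbeath hs hs' (by
      simp only [vadd_eq_add] at hsw hsw'
      exact hsw.trans hsw'.symm) h3
    rw [mem_smul_set]
    refine ⟨_, h4, ?_⟩
    have e : (6 * N : ℝ) • ((1 / 3 : ℝ) • ((1 / 2 : ℝ) • ((1 / (N : ℝ)) • (f + g - c x') -
        (1 / (N : ℝ)) • (f - c x')))) = ((6 * N : ℝ) * (1 / 3) * (1 / 2) * (1 / N)) • g := by
      module
    rw [e]
    have : (6 * N : ℝ) * (1 / 3) * (1 / 2) * (1 / N) = 1 := by field_simp; norm_num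
    rw [this, one_smul]
  -- the pieces are in the shell
  have hshell : ⋃ y ∈ u, B y ⊆ shell W ε := by
    intro w hw
    rw [mem_iUnion₂] at hw
    obtain ⟨y, -, _, ⟨v, hv, rfl⟩, rfl⟩ := hw
    simp only [vadd_eq_add]
    constructor
    · have h1 : y.1 (c y - v) ≤ ‖c y - v‖ := y.2.1 _
      rw [map_sub] at h1
      have h2 : ‖c y - v‖ ≤ 1 := hv.2
      have h3 : y.1 (c y + (1 / 2 : ℝ) • v) ≤ ‖c y + (1 / 2 : ℝ) • v‖ := y.2.1 _
      rw [map_add, map_smul, smul_eq_mul] at h3
      have h4 := hc2 y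
      linarith
    · have e : c y + (1 / 2 : ℝ) • v = (1 / 2 : ℝ) • (c y + v) + (1 / 2 : ℝ) • c y := by module
      rw [e]
      have h1 := norm_add_le ((1 / 2 : ℝ) • (c y + v)) ((1 / 2 : ℝ) • c y)
      have h3 : ∀ z : W, ‖(1 / 2 : ℝ) • z‖ = 1 / 2 * ‖z‖ := by
        intro z
        rw [norm_smul, Real.norm_eq_abs, abs_of_pos (by norm_num)]
      rw [h3, h3] at h1
      have h4 := hv.1
      have h5 := hc1 y
      linarith
  -- the measure of the pieces
  have hmeas : ∀ y : ι, μ ((6 * N : ℝ) • S (c y)) = ENNReal.ofReal ((12 * N) ^ N) * μ (B y) := by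
    intro y
    have h1 : μ (B y) = μ ((1 / 2 : ℝ) • S (c y)) := measure_vadd μ (c y) _
    have h2 : (6 * N : ℝ) • S (c y) = (12 * N : ℝ) • ((1 / 2 : ℝ) • S (c y)) := by
      rw [smul_smul]
      congr 1
      ring
    rw [h2, h1, Measure.addHaar_smul, hN, abs_of_nonneg (by positivity)]
  calc μ (Bad W) ≤ μ (⋃ y ∈ u, ((6 * N : ℝ) • S (c y))) := measure_mono hbad
    _ ≤ ∑' y : u, μ ((6 * N : ℝ) • S (c y)) := measure_biUnion_le μ hucount _
    _ = ∑' y : u, ENNReal.ofReal ((12 * N) ^ N) * μ (B y) := by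
        congr 1
        ext y
        exact hmeas y
    _ = ENNReal.ofReal ((12 * N) ^ N) * ∑' y : u, μ (B y) := ENNReal.tsum_mul_left
    _ = ENNReal.ofReal ((12 * N) ^ N) * μ (⋃ y ∈ u, B y) := by
        rw [measure_biUnion hucount hdisj (fun y _ => hScl y)]
    _ ≤ ENNReal.ofReal ((12 * N) ^ N) * μ (shell W ε) := by
        gcongr

/-- **The bad set is null.** -/
theorem measure_bad : μ (Bad W) = 0 := by
  rcases Nat.eq_zero_or_pos (Module.finrank ℝ W) with h0 | hpos
  · -- trivial space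
    have hsub : Subsingleton W := Module.finrank_zero_iff.1 h0
    have : Bad W = ∅ := by
      ext g
      simp only [Bad, mem_ofPred_eq, mem_empty_iff_false, iff_false]
      rintro ⟨x, f, -, -, -, hxf, -⟩
      have : f = 0 := Subsingleton.elim _ _
      rw [this, map_zero] at hxf
      norm_num at hxf
    rw [this, measure_empty]
  set N := Module.finrank ℝ W with hN
  have hfin : μ (shell W 1) ≠ ⊤ := by
    apply ne_of_lt
    refine lt_of_le_of_lt (measure_mono (t := Metric.closedBall (0 : W) 1) ?_)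
      (isCompact_closedBall 0 1).measure_lt_top
    intro w hw
    simpa using hw.2
  have hlim : Filter.Tendsto (fun k : ℕ => μ (shell W (1 / ((k : ℝ) + 1)))) Filter.atTop
      (nhds (μ (⋂ k : ℕ, shell W (1 / ((k : ℝ) + 1))))) := by
    apply tendsto_measure_iInter_atTop
    · intro k
      apply MeasurableSet.nullMeasurableSet
      apply IsClosed.measurableSet
      have h1 : IsClosed {w : W | 1 - 2 * (1 / ((k : ℝ) + 1)) ≤ ‖w‖} :=
        isClosed_le continuous_const (by fun_prop)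
      have h2 : IsClosed {w : W | ‖w‖ ≤ 1} := isClosed_le (by fun_prop) continuous_const
      exact h1.inter h2
    · intro k l hkl w hw
      refine ⟨?_, hw.2⟩
      have h1 : 1 / ((l : ℝ) + 1) ≤ 1 / ((k : ℝ) + 1) := by
        apply one_div_le_one_div_of_le (by positivity)
        have : (k : ℝ) ≤ l := by exact_mod_cast hkl
        linarith
      linarith [hw.1]
    · exact ⟨0, by simpa using hfin⟩
  have hsph : (⋂ k : ℕ, shell W (1 / ((k : ℝ) + 1))) ⊆ Metric.sphere (0 : W) 1 := by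
    intro w hw
    rw [mem_iInter] at hw
    rw [mem_sphere_zero_iff_norm]
    apply le_antisymm (hw 0).2
    by_contra hlt
    push Not at hlt
    obtain ⟨k, hk⟩ := exists_nat_one_div_lt (show (0 : ℝ) < (1 - ‖w‖) / 2 by linarith)
    have := (hw k).1
    linarith
  have hnull : μ (⋂ k : ℕ, shell W (1 / ((k : ℝ) + 1))) = 0 :=
    measure_mono_null hsph (Measure.addHaar_sphere_of_ne_zero μ 0 one_ne_zero)
  rw [hnull] at hlim
  have hlim2 : Filter.Tendsto (fun k : ℕ => ENNReal.ofReal ((12 * N) ^ N) *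
      μ (shell W (1 / ((k : ℝ) + 1)))) Filter.atTop (nhds (ENNReal.ofReal ((12 * N) ^ N) * 0)) :=
    ENNReal.Tendsto.const_mul hlim (Or.inr ENNReal.ofReal_ne_top)
  rw [mul_zero] at hlim2
  have hle : μ (Bad W) ≤ 0 := by
    apply ge_of_tendsto' hlim2
    intro k
    exact measure_bad_le μ rfl hpos (by positivity)
  exact le_antisymm hle bot_le

end Pool.Agent.helper33.Cheb
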