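import Mathlib
import Pool.Agent.helper33.Macbeath

set_option autoImplicit false

open MeasureTheory Set
open scoped Pointwise

namespace Pool.Agent.helper33.Cheb

section Good

variable {W : Type*} [NormedAddCommGroup W] [NormedSpace ℝ W]

lemma bad_star {g : W} (hg : g ∈ Bad W) {s : ℝ} (hs0 : 0 ≤ s) (hs1 : s ≤ 1) : s • g ∈ Bad W := by
  obtain ⟨x, f, hx, hf, hfg, hxf, hxfg⟩ := hg
  refine ⟨x, f, hx, hf, ?_, hxf, ?_⟩
  · have e : f + s • g = (1 - s) • f + s • (f + g) := by module
    rw [e]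
    have h1 := norm_add_le ((1 - s) • f) (s • (f + g))
    rw [norm_smul, norm_smul, Real.norm_eq_abs, Real.norm_eq_abs, abs_of_nonneg hs0,
      abs_of_nonneg (by linarith)] at h1
    nlinarith
  · rw [map_add, map_smul, hxf]
    rw [map_add, hxf] at hxfg
    have : x g = 0 := by linarith
    rw [this]
    simp

variable {𝕜 : Type*} [RCLike 𝕜] {V : Type*} [NormedAddCommGroup V] [NormedSpace 𝕜 V]

/-- `g` is good if no nonzero multiple of `g` is the difference of two points of a common
(norm-attaining) face of the dual unit ball. -/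
def Good (g : StrongDual 𝕜 V) : Prop :=
  ∀ (l : 𝕜) (v : V) (f : StrongDual 𝕜 V), ‖v‖ = 1 → ‖f‖ ≤ 1 → ‖f + l • g‖ ≤ 1 → f v = 1 →
    (f + l • g) v = 1 → l = 0

lemma norm_smul_mem_bad {g : StrongDual 𝕜 V} {l : 𝕜} {v : V} {f : StrongDual 𝕜 V}
    (hl : l ≠ 0) (hv : ‖v‖ = 1) (hf : ‖f‖ ≤ 1) (hfg : ‖f + l • g‖ ≤ 1) (hfv : f v = 1)
    (hfgv : (f + l • g) v = 1) : (‖l‖ : ℝ) • g ∈ Bad (StrongDual 𝕜 V) := by
  have hl' : (‖l‖ : 𝕜) ≠ 0 := by
    rw [Ne, RCLike.ofReal_eq_zero]
    exact norm_ne_zero_iff.2 hl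
  set c : 𝕜 := (‖l‖ : 𝕜) / l with hc
  have hcn : ‖c‖ = 1 := by
    rw [hc, norm_div, RCLike.norm_ofReal, abs_norm]
    exact div_self (norm_ne_zero_iff.2 hl)
  have hc0 : c ≠ 0 := by
    intro h
    rw [h, norm_zero] at hcn
    norm_num at hcn
  have hcl : c * l = (‖l‖ : 𝕜) := by
    rw [hc]; field_simp
  -- the real functional `w ↦ Re (w (c⁻¹ v))`
  let x : StrongDual 𝕜 V →ₗ[ℝ] ℝ :=
    { toFun := fun w => RCLike.re (w (c⁻¹ • v))
      map_add' := by
        intro a b
        rw [add_apply, map_add]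
      map_smul' := by
        intro r a
        rw [smul_apply, RCLike.smul_re]
        rfl }
  have hxapp : ∀ w, x w = RCLike.re (w (c⁻¹ • v)) := fun _ => rfl
  have hkey : f + l • g = c⁻¹ • (c • f + (‖l‖ : ℝ) • g) := by
    ext z
    simp only [add_apply, smul_apply, smul_eq_mul, RCLike.real_smul_eq_coe_mul]
    rw [← hcl]
    field_simp
  have hkey2 : c • f + (‖l‖ : ℝ) • g = c • (f + l • g) := by
    rw [hkey, smul_smul, mul_inv_cancel₀ hc0, one_smul]
  refine ⟨x, c • f, ?_, ?_, ?_, ?_, ?_⟩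
  · intro w
    rw [hxapp]
    calc RCLike.re (w (c⁻¹ • v)) ≤ ‖w (c⁻¹ • v)‖ := RCLike.re_le_norm _
      _ ≤ ‖w‖ * ‖c⁻¹ • v‖ := w.le_opNorm _
      _ = ‖w‖ := by rw [norm_smul, norm_inv, hcn, hv]; ring
  · rw [norm_smul, hcn, one_mul]
    exact hf
  · rw [hkey2, norm_smul, hcn, one_mul]
    exact hfg
  · have e1 : (c • f) (c⁻¹ • v) = 1 := by
      rw [smul_apply, f.map_smul, hfv, smul_eq_mul, smul_eq_mul, mul_one, mul_inv_cancel₀ hc0]
    rw [hxapp, e1]
    simp
  · have e1 : (c • (f + l • g)) (c⁻¹ • v) = 1 := by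
      rw [smul_apply, (f + l • g).map_smul, hfgv, smul_eq_mul, smul_eq_mul, mul_one,
        mul_inv_cancel₀ hc0]
    rw [hxapp, hkey2, e1]
    simp

/-- Good functionals are dense. -/
theorem dense_good [FiniteDimensional 𝕜 V] : Dense {g : StrongDual 𝕜 V | Good g} := by
  have hfin : FiniteDimensional ℝ (StrongDual 𝕜 V) := FiniteDimensional.trans ℝ 𝕜 _
  let _ : MeasurableSpace (StrongDual 𝕜 V) := borel _
  have _ : BorelSpace (StrongDual 𝕜 V) := ⟨rfl⟩
  set μ : Measure (StrongDual 𝕜 V) := Measure.addHaar with hμ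
  have hnull : μ (⋃ m : ℕ, ((m : ℝ) • Bad (StrongDual 𝕜 V))) = 0 := by
    rw [measure_iUnion_null_iff]
    intro m
    have h1 := Measure.addHaar_smul μ (m : ℝ) (Bad (StrongDual 𝕜 V))
    rw [measure_bad, mul_zero] at h1
    exact h1
  have hae : ∀ᵐ g ∂μ, Good g := by
    rw [ae_iff]
    refine measure_mono_null ?_ hnull
    intro g hg
    simp only [mem_ofPred_eq, Good] at hg
    push Not at hg
    obtain ⟨l, v, f, hv, hf, hfg, hfv, hfgv, hl⟩ := hg
    have h1 := norm_smul_mem_bad hl hv hf hfg hfv hfgv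
    have hlpos : 0 < ‖l‖ := norm_pos_iff.2 hl
    obtain ⟨m, hm⟩ := exists_nat_one_div_lt hlpos
    rw [mem_iUnion]
    refine ⟨m + 1, ?_⟩
    rw [mem_smul_set]
    have hmpos : (0 : ℝ) < (m : ℝ) + 1 := by positivity
    refine ⟨(1 / ((m : ℝ) + 1)) • g, ?_, ?_⟩
    · have h2 := bad_star h1 (s := (1 / ((m : ℝ) + 1)) / ‖l‖) (by positivity)
        ((div_le_one hlpos).2 hm.le)
      rw [smul_smul, div_mul_cancel₀ _ hlpos.ne'] at h2
      exact h2
    · rw [smul_smul]
      have : ((m + 1 : ℕ) : ℝ) * (1 / ((m : ℝ) + 1)) = 1 := by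
        push_cast
        field_simp
      rw [this, one_smul]
  exact Measure.dense_of_ae hae

end Good

section Perturb

variable {𝕜 : Type*} [RCLike 𝕜] {E : Type*} [NormedAddCommGroup E] [NormedSpace 𝕜 E]

/-- The norm-preserving extensions, from the span of `x` to the whole space, of the functionals on
the span are unique at the vector `e`. -/
def Sep (𝕜 : Type*) [RCLike 𝕜] {E : Type*} [NormedAddCommGroup E] [NormedSpace 𝕜 E]
    {n : ℕ} (x : Fin n → E) (e : E) : Prop :=
  ∀ f h : StrongDual 𝕜 E, ‖f‖ ≤ 1 → ‖h‖ ≤ 1 → (∀ i, f (x i) = h (x i)) →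
    ∀ c : Fin n → 𝕜, c ≠ 0 → f (∑ i, c i • x i) = (‖∑ i, c i • x i‖ : 𝕜) → f e = h e

theorem exists_sep_near {n : ℕ} (x : Fin n → E) (hx : LinearIndependent 𝕜 x) (e : E)
    {δ : ℝ} (hδ : 0 < δ) : ∃ y : Fin n → E, dist y x < δ ∧ Sep 𝕜 y e := by
  classical
  by_cases he : e ∈ Submodule.span 𝕜 (range x)
  · refine ⟨x, by simpa using hδ, ?_⟩
    intro f h _ _ hfh c _ _
    have hle : Submodule.span 𝕜 (range x) ≤
        LinearMap.eqLocus (f : E →ₗ[𝕜] 𝕜) (h : E →ₗ[𝕜] 𝕜) := by
      rw [Submodule.span_le]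
      rintro _ ⟨i, rfl⟩
      exact hfh i
    exact hle he
  · have hli : LinearIndependent 𝕜 (Fin.cons e x : Fin (n + 1) → E) :=
      linearIndependent_finCons.2 ⟨hx, he⟩
    set V : Submodule 𝕜 E := Submodule.span 𝕜 (range (Fin.cons e x : Fin (n + 1) → E)) with hV
    let b : Module.Basis (Fin (n + 1)) 𝕜 V := Module.Basis.span hli
    have hb : ∀ i, ((b i : V) : E) = (Fin.cons e x : Fin (n + 1) → E) i := fun i =>
      congrArg Subtype.val (Module.Basis.span_apply hli i)
    have _ : FiniteDimensional 𝕜 V := Module.Basis.finiteDimensional_of_finite b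
    let g0 : StrongDual 𝕜 V := LinearMap.toContinuousLinearMap (b.coord 0)
    have hg0e : g0 (b 0) = 1 := by
      simp [g0]
    have hg0x : ∀ i : Fin n, g0 (b i.succ) = 0 := by
      intro i
      simp [g0]
    -- the perturbed tuple
    let Y : StrongDual 𝕜 V → (Fin n → E) := fun g i => x i - (g (b i.succ) / g (b 0)) • e
    have hYc : ContinuousAt Y g0 := by
      rw [continuousAt_pi]
      intro i
      have h1 : Continuous (fun g : StrongDual 𝕜 V => g (b i.succ)) :=
        (ContinuousLinearMap.apply 𝕜 𝕜 (b i.succ)).continuous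
      have h2 : Continuous (fun g : StrongDual 𝕜 V => g (b 0)) :=
        (ContinuousLinearMap.apply 𝕜 𝕜 (b 0)).continuous
      have h3 : ContinuousAt (fun g : StrongDual 𝕜 V => g (b i.succ) / g (b 0)) g0 :=
        h1.continuousAt.div h2.continuousAt (by rw [hg0e]; exact one_ne_zero)
      exact continuousAt_const.sub (h3.smul continuousAt_const)
    have hY0 : Y g0 = x := by
      funext i
      simp only [Y, hg0x, zero_div, zero_smul, sub_zero]
    have hnhds : {g : StrongDual 𝕜 V | dist (Y g) x < δ ∧ g (b 0) ≠ 0} ∈ nhds g0 := by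
      apply Filter.inter_mem
      · have := hYc (Metric.ball_mem_nhds (Y g0) hδ)
        rw [Filter.mem_map] at this
        rw [hY0] at this
        exact this
      · have h2 : Continuous (fun g : StrongDual 𝕜 V => g (b 0)) :=
          (ContinuousLinearMap.apply 𝕜 𝕜 (b 0)).continuous
        exact h2.continuousAt.eventually_ne (by rw [hg0e]; exact one_ne_zero)
    obtain ⟨g, hgood, hg1, hg2⟩ := (dense_good (𝕜 := 𝕜) (V := V)).inter_nhds_nonempty hnhds
    refine ⟨Y g, hg1, ?_⟩
    intro f h hf hh hfh c hc hfc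
    set v : E := ∑ i, c i • Y g i with hv
    have hvV : v = ((∑ i, c i • (b i.succ - (g (b i.succ) / g (b 0)) • b 0) : V) : E) := by
      rw [hv]
      push_cast
      apply Finset.sum_congr rfl
      intro i _
      simp only [hb, Fin.cons_succ, Fin.cons_zero, Y]
    have hv0 : v ≠ 0 := by
      intro hv0
      apply hc
      have h1 : ∑ i, c i • (b i.succ - (g (b i.succ) / g (b 0)) • b 0) = 0 := by
        apply Subtype.ext
        rw [← hvV, hv0]
        rfl
      funext j
      have h2 := congrArg (fun w => b.repr w j.succ) h1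
      simp only [map_sum, map_smul, map_sub, Module.Basis.repr_self, Finsupp.coe_finsetSum,
        Finset.sum_apply, Finsupp.smul_apply, Finsupp.sub_apply, map_zero, Finsupp.coe_zero,
        Pi.zero_apply, smul_eq_mul] at h2
      have h3 : ∀ i : Fin n, c i * ((Finsupp.single i.succ (1 : 𝕜)) j.succ -
          g (b i.succ) / g (b 0) * (Finsupp.single (0 : Fin (n + 1)) (1 : 𝕜)) j.succ)
          = if i = j then c i else 0 := by
        intro i
        have e1 : (Finsupp.single (0 : Fin (n + 1)) (1 : 𝕜)) j.succ = 0 :=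
          Finsupp.single_eq_of_ne (by simp)
        rw [e1, Finsupp.single_apply]
        by_cases hij : i = j
        · subst hij
          simp
        · simp [hij]
      rw [Finset.sum_congr rfl (fun i _ => h3 i)] at h2
      simpa using h2
    -- restrict to `V`
    let fV : StrongDual 𝕜 V := f.comp V.subtypeL
    let hV' : StrongDual 𝕜 V := h.comp V.subtypeL
    have hnorm : ∀ k : StrongDual 𝕜 E, ‖k‖ ≤ 1 → ‖k.comp V.subtypeL‖ ≤ 1 := by
      intro k hk
      refine ContinuousLinearMap.opNorm_le_bound _ zero_le_one ?_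
      intro w
      rw [ContinuousLinearMap.comp_apply]
      calc ‖k (V.subtypeL w)‖ ≤ ‖k‖ * ‖(V.subtypeL w : E)‖ := k.le_opNorm _
        _ ≤ 1 * ‖(V.subtypeL w : E)‖ := mul_le_mul_of_nonneg_right hk (norm_nonneg _)
        _ = 1 * ‖w‖ := by simp
    set l : 𝕜 := (f e - h e) / g (b 0) with hl
    have hfb : ∀ k : StrongDual 𝕜 E, ∀ i, (k.comp V.subtypeL) (b i)
        = k ((Fin.cons e x : Fin (n + 1) → E) i) := by
      intro k i
      rw [ContinuousLinearMap.comp_apply, Submodule.subtypeL_apply, hb]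
    have hdiff : hV' + l • g = fV := by
      apply ContinuousLinearMap.coe_inj.1
      apply b.ext
      intro i
      simp only [ContinuousLinearMap.coe_coe, add_apply, smul_apply, smul_eq_mul, hV', fV, hfb]
      refine Fin.cases ?_ (fun j => ?_) i
      · simp only [Fin.cons_zero, hl]
        field_simp
        ring
      · simp only [Fin.cons_succ, hl]
        have h1 := hfh j
        simp only [Y, map_sub, map_smul, smul_eq_mul] at h1
        have h2 : f (x j) - h (x j) = (g (b j.succ) / g (b 0)) * (f e - h e) := by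
          linear_combination h1
        have h3 : (f e - h e) / g (b 0) * g (b j.succ) = f (x j) - h (x j) := by
          rw [h2]; ring
        rw [h3]; ring
    have hvn : (‖v‖ : 𝕜) ≠ 0 := by
      rw [Ne, RCLike.ofReal_eq_zero]
      exact norm_ne_zero_iff.2 hv0
    let v1 : V := (‖v‖ : 𝕜)⁻¹ • (∑ i, c i • (b i.succ - (g (b i.succ) / g (b 0)) • b 0))
    have hv1 : (v1 : E) = (‖v‖ : 𝕜)⁻¹ • v := by
      change (‖v‖ : 𝕜)⁻¹ •
        ((∑ i, c i • (b i.succ - (g (b i.succ) / g (b 0)) • b 0) : V) : E) = _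
      rw [← hvV]
    have hhv : h v = (‖v‖ : 𝕜) := by
      rw [← hfc, hv, map_sum, map_sum]
      apply Finset.sum_congr rfl
      intro i _
      rw [map_smul, map_smul, hfh i]
    have hl0 := hgood l v1 hV' ?_ (hnorm h hh) ?_ ?_ ?_
    · have : f e - h e = 0 := by
        have h5 : (f e - h e) / g (b 0) = 0 := hl0
        rcases div_eq_zero_iff.1 h5 with h6 | h6
        · exact h6
        · exact absurd h6 hg2
      exact sub_eq_zero.1 this
    · rw [Submodule.coe_norm, hv1, norm_smul, norm_inv, RCLike.norm_ofReal, abs_norm]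
      exact inv_mul_cancel₀ (norm_ne_zero_iff.2 hv0)
    · rw [hdiff]
      exact hnorm f hf
    · change h (v1 : E) = 1
      rw [hv1, map_smul, hhv, smul_eq_mul, inv_mul_cancel₀ hvn]
    · rw [hdiff]
      change f (v1 : E) = 1
      rw [hv1, map_smul, hfc, smul_eq_mul, inv_mul_cancel₀ hvn]

end Perturb

end Pool.Agent.helper33.Cheb
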