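import Mathlib
import Pool.Agent.helper33.Generic

set_option autoImplicit false

open Set

namespace Pool.Agent.helper33.Cheb

variable {𝕜 : Type*} [RCLike 𝕜] {E : Type*} [NormedAddCommGroup E] [NormedSpace 𝕜 E]

/-- Linearly independent tuples are dense. -/
theorem dense_linearIndependent {n : ℕ} (hn : (n : Cardinal) ≤ Module.rank 𝕜 E) :
    Dense {x : Fin n → E | LinearIndependent 𝕜 x} := by
  classical
  obtain ⟨z, hz⟩ := exists_linearIndependent_of_le_rank hn
  -- a linear left inverse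
  have hker : LinearMap.ker (Fintype.linearCombination 𝕜 z) = ⊥ := by
    rw [LinearMap.ker_eq_bot']
    intro c hc
    rw [Fintype.linearCombination_apply] at hc
    funext i
    exact Fintype.linearIndependent_iff.1 hz c hc i
  obtain ⟨φ, hφ⟩ := LinearMap.exists_leftInverse_of_injective _ hker
  have hφz : ∀ i, φ (z i) = Pi.single i 1 := by
    intro i
    have h1 : φ ((Fintype.linearCombination 𝕜 z) (Pi.single i 1)) = Pi.single i 1 := by
      rw [← LinearMap.comp_apply, hφ]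
      rfl
    rw [Fintype.linearCombination_apply_single, one_smul] at h1
    exact h1
  rw [Metric.dense_iff]
  intro x r hr
  let A : Matrix (Fin n) (Fin n) 𝕜 := Matrix.of fun i j => - φ (x i) j
  -- the exceptional parameters
  have hfin : {t : 𝕜 | A.charpoly.eval t = 0}.Finite := by
    have h0 : A.charpoly ≠ 0 := (Matrix.charpoly_monic A).ne_zero
    refine (A.charpoly.roots.toFinset.finite_toSet).subset ?_
    intro t ht
    simp only [Finset.mem_coe, Multiset.mem_toFinset]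
    exact (Polynomial.mem_roots h0).2 ht
  have hdense : Dense {t : 𝕜 | A.charpoly.eval t = 0}ᶜ := by
    exact hfin.countable.dense_compl 𝕜
  have hcont : Continuous (fun t : 𝕜 => x + t • z) := by fun_prop
  have hnhds : (fun t : 𝕜 => x + t • z) ⁻¹' (Metric.ball x r) ∈ nhds (0 : 𝕜) := by
    apply hcont.continuousAt
    simp only [zero_smul, add_zero]
    exact Metric.ball_mem_nhds x hr
  obtain ⟨t, ht1, ht2⟩ := hdense.inter_nhds_nonempty hnhds
  refine ⟨x + t • z, ht2, ?_⟩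
  simp only [mem_ofPred_eq]
  rw [Fintype.linearIndependent_iff]
  intro c hc
  have hdet : (Matrix.scalar (Fin n) t - A).det ≠ 0 := by
    rw [← Matrix.eval_charpoly]
    exact ht1
  have hvec : Matrix.vecMul c (Matrix.scalar (Fin n) t - A) = 0 := by
    funext j
    have h1 := congrArg (fun w => φ w j) hc
    simp only [map_sum, map_smul, Pi.add_apply, Pi.smul_apply, map_add, map_zero, Pi.zero_apply,
      Finset.sum_apply, smul_eq_mul, hφz] at h1
    simp only [Matrix.vecMul, dotProduct, Matrix.sub_apply, Matrix.scalar_apply, A,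
      Matrix.of_apply, Pi.zero_apply]
    rw [← h1]
    apply Finset.sum_congr rfl
    intro i _
    rw [Matrix.diagonal_apply, Pi.single_apply]
    by_cases hij : i = j
    · subst hij
      rw [if_pos rfl, if_pos rfl]
      ring
    · have hji : ¬ (j = i) := fun h => hij h.symm
      simp [hij, hji]
  have := Matrix.eq_zero_of_vecMul_eq_zero hdet hvec
  intro i
  rw [this]
  rfl

/-- The set of tuples for which the norm-preserving extensions are `ε`-unique at `e`. -/
def U (𝕜 : Type*) [RCLike 𝕜] {E : Type*} [NormedAddCommGroup E] [NormedSpace 𝕜 E]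
    (n : ℕ) (e : E) (ε : ℝ) : Set (Fin n → E) :=
  {x | ∀ f h : StrongDual 𝕜 E, ‖f‖ ≤ 1 → ‖h‖ ≤ 1 → (∀ i, f (x i) = h (x i)) →
    ∀ c : Fin n → 𝕜, ‖c‖ = 1 → f (∑ i, c i • x i) = (‖∑ i, c i • x i‖ : 𝕜) → ‖f e - h e‖ < ε}

/-- The dual unit ball with the weak-star topology. -/
abbrev DB (𝕜 : Type*) [RCLike 𝕜] (E : Type*) [NormedAddCommGroup E] [NormedSpace 𝕜 E] :
    Set (WeakDual 𝕜 E) := WeakDual.toStrongDual ⁻¹' Metric.closedBall (0 : StrongDual 𝕜 E) 1

lemma continuous_eval : Continuous (fun p : DB 𝕜 E × E => (p.1 : WeakDual 𝕜 E) p.2) := by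
  rw [continuous_iff_continuousAt]
  rintro ⟨f0, x0⟩
  have h1 : Filter.Tendsto (fun p : DB 𝕜 E × E => (p.1 : WeakDual 𝕜 E) (p.2 - x0))
      (nhds (f0, x0)) (nhds 0) := by
    apply squeeze_zero_norm (a := fun p : DB 𝕜 E × E => ‖p.2 - x0‖)
    · rintro ⟨f, x⟩
      have hf : ‖WeakDual.toStrongDual (f : WeakDual 𝕜 E)‖ ≤ 1 := mem_closedBall_zero_iff.1 f.2
      have := (WeakDual.toStrongDual (f : WeakDual 𝕜 E)).le_of_opNorm_le hf (x - x0)
      rw [one_mul] at this
      exact this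
    · have : Continuous (fun p : DB 𝕜 E × E => ‖p.2 - x0‖) := by fun_prop
      have h2 := this.tendsto (f0, x0)
      simpa using h2
  have h2 : Filter.Tendsto (fun p : DB 𝕜 E × E => (p.1 : WeakDual 𝕜 E) x0)
      (nhds (f0, x0)) (nhds ((f0 : WeakDual 𝕜 E) x0)) := by
    have : Continuous (fun p : DB 𝕜 E × E => (p.1 : WeakDual 𝕜 E) x0) :=
      (WeakDual.eval_continuous x0).comp (continuous_subtype_val.comp continuous_fst)
    exact this.tendsto (f0, x0)
  have h3 := h1.add h2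
  rw [zero_add] at h3
  refine h3.congr ?_
  rintro ⟨f, x⟩
  simp only
  rw [← map_add, sub_add_cancel]

lemma continuous_eval' {X : Type*} [TopologicalSpace X] {F : X → DB 𝕜 E} {G : X → E}
    (hF : Continuous F) (hG : Continuous G) :
    Continuous (fun p => ((F p : WeakDual 𝕜 E)) (G p)) :=
  continuous_eval.comp (hF.prodMk hG)

theorem isOpen_U (n : ℕ) (e : E) (ε : ℝ) : IsOpen (U 𝕜 n e ε) := by
  have _ : CompactSpace (DB 𝕜 E) :=
    isCompact_iff_compactSpace.1 (WeakDual.isCompact_closedBall (0 : StrongDual 𝕜 E) 1)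
  have _ : CompactSpace (Metric.sphere (0 : Fin n → 𝕜) 1) :=
    isCompact_iff_compactSpace.1 (isCompact_sphere _ _)
  let C : Set ((Fin n → E) × (DB 𝕜 E × DB 𝕜 E × Metric.sphere (0 : Fin n → 𝕜) 1)) :=
    {p | (∀ i, (p.2.1 : WeakDual 𝕜 E) (p.1 i) = (p.2.2.1 : WeakDual 𝕜 E) (p.1 i)) ∧
      (p.2.1 : WeakDual 𝕜 E) (∑ i, (p.2.2.2 : Fin n → 𝕜) i • p.1 i)
        = (‖∑ i, (p.2.2.2 : Fin n → 𝕜) i • p.1 i‖ : 𝕜) ∧
      ε ≤ ‖(p.2.1 : WeakDual 𝕜 E) e - (p.2.2.1 : WeakDual 𝕜 E) e‖}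
  have hsum : Continuous (fun p : (Fin n → E) × (DB 𝕜 E × DB 𝕜 E ×
      Metric.sphere (0 : Fin n → 𝕜) 1) => ∑ i, (p.2.2.2 : Fin n → 𝕜) i • p.1 i) := by
    apply continuous_finsetSum
    intro i _
    apply Continuous.smul
    · exact (continuous_apply i).comp (continuous_subtype_val.comp
        (continuous_snd.comp (continuous_snd.comp continuous_snd)))
    · exact (continuous_apply i).comp continuous_fst
  have hF1 : Continuous (fun p : (Fin n → E) × (DB 𝕜 E × DB 𝕜 E ×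
      Metric.sphere (0 : Fin n → 𝕜) 1) => p.2.1) := continuous_fst.comp continuous_snd
  have hF2 : Continuous (fun p : (Fin n → E) × (DB 𝕜 E × DB 𝕜 E ×
      Metric.sphere (0 : Fin n → 𝕜) 1) => p.2.2.1) :=
    continuous_fst.comp (continuous_snd.comp continuous_snd)
  have hC : IsClosed C := by
    have h1 : IsClosed {p : (Fin n → E) × (DB 𝕜 E × DB 𝕜 E × Metric.sphere (0 : Fin n → 𝕜) 1) |
        ∀ i, (p.2.1 : WeakDual 𝕜 E) (p.1 i) = (p.2.2.1 : WeakDual 𝕜 E) (p.1 i)} := by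
      have : {p : (Fin n → E) × (DB 𝕜 E × DB 𝕜 E × Metric.sphere (0 : Fin n → 𝕜) 1) |
        ∀ i, (p.2.1 : WeakDual 𝕜 E) (p.1 i) = (p.2.2.1 : WeakDual 𝕜 E) (p.1 i)} =
        ⋂ i, {p | (p.2.1 : WeakDual 𝕜 E) (p.1 i) = (p.2.2.1 : WeakDual 𝕜 E) (p.1 i)} := by
        ext p
        simp
      rw [this]
      apply isClosed_iInter
      intro i
      exact isClosed_eq (continuous_eval' hF1 ((continuous_apply i).comp continuous_fst))
        (continuous_eval' hF2 ((continuous_apply i).comp continuous_fst))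
    have h2 : IsClosed {p : (Fin n → E) × (DB 𝕜 E × DB 𝕜 E × Metric.sphere (0 : Fin n → 𝕜) 1) |
        (p.2.1 : WeakDual 𝕜 E) (∑ i, (p.2.2.2 : Fin n → 𝕜) i • p.1 i)
        = (‖∑ i, (p.2.2.2 : Fin n → 𝕜) i • p.1 i‖ : 𝕜)} :=
      isClosed_eq (continuous_eval' hF1 hsum)
        (RCLike.continuous_ofReal.comp (continuous_norm.comp hsum))
    have h3 : IsClosed {p : (Fin n → E) × (DB 𝕜 E × DB 𝕜 E × Metric.sphere (0 : Fin n → 𝕜) 1) |
        ε ≤ ‖(p.2.1 : WeakDual 𝕜 E) e - (p.2.2.1 : WeakDual 𝕜 E) e‖} :=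
      isClosed_le continuous_const (continuous_norm.comp
        ((continuous_eval' hF1 continuous_const).sub (continuous_eval' hF2 continuous_const)))
    exact h1.inter (h2.inter h3)
  have hproj : U 𝕜 n e ε = (Prod.fst '' C)ᶜ := by
    ext x
    simp only [U, mem_ofPred_eq, mem_compl_iff, mem_image, not_exists, not_and]
    constructor
    · rintro h ⟨y, f, g, c⟩ ⟨h1, h2, h3⟩ rfl
      have hf : ‖WeakDual.toStrongDual (f : WeakDual 𝕜 E)‖ ≤ 1 := mem_closedBall_zero_iff.1 f.2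
      have hg : ‖WeakDual.toStrongDual (g : WeakDual 𝕜 E)‖ ≤ 1 := mem_closedBall_zero_iff.1 g.2
      have hc : ‖(c : Fin n → 𝕜)‖ = 1 := mem_sphere_zero_iff_norm.1 c.2
      have := h (WeakDual.toStrongDual (f : WeakDual 𝕜 E)) (WeakDual.toStrongDual (g : WeakDual 𝕜 E))
        hf hg h1 c hc h2
      exact absurd h3 (not_le.2 this)
    · intro h f g hf hg h1 c hc h2
      by_contra h3
      push Not at h3
      exact h ⟨x, ⟨StrongDual.toWeakDual f, by simpa using hf⟩,
        ⟨StrongDual.toWeakDual g, by simpa using hg⟩, ⟨c, by simpa using hc⟩⟩ ⟨h1, h2, h3⟩ rfl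
  rw [hproj, isOpen_compl_iff]
  exact isClosedMap_fst_of_compactSpace C hC

theorem dense_U {n : ℕ} (hn : (n : Cardinal) ≤ Module.rank 𝕜 E) (e : E) {ε : ℝ} (hε : 0 < ε) :
    Dense (U 𝕜 n e ε) := by
  rw [Metric.dense_iff]
  intro x r hr
  obtain ⟨y, hy1, hy2⟩ := Metric.dense_iff.1 (dense_linearIndependent (𝕜 := 𝕜) hn) x (r / 2)
    (by positivity)
  obtain ⟨z, hz1, hz2⟩ := exists_sep_near y hy2 e (δ := r / 2) (by positivity)
  refine ⟨z, ?_, ?_⟩
  · rw [Metric.mem_ball] at hy1 ⊢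
    calc dist z x ≤ dist z y + dist y x := dist_triangle _ _ _
      _ < r := by linarith
  · intro f h hf hh hfh c hc hfc
    have hc0 : c ≠ 0 := by
      rintro rfl
      rw [norm_zero] at hc
      norm_num at hc
    rw [hz2 f h hf hh hfh c hc0 hfc, sub_self, norm_zero]
    exact hε

/-- The tuples whose span has unique norm-preserving extensions of norm-attaining functionals. -/
theorem residual_sep [CompleteSpace E] [TopologicalSpace.SeparableSpace E] {n : ℕ}
    (hn : (n : Cardinal) ≤ Module.rank 𝕜 E) :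
    ∃ T : Set (Fin n → E), IsGδ T ∧ Dense T ∧ ∀ x ∈ T, LinearIndependent 𝕜 x ∧
      ∀ f h : StrongDual 𝕜 E, ‖f‖ ≤ 1 → ‖h‖ ≤ 1 → (∀ i, f (x i) = h (x i)) →
        ∀ c : Fin n → 𝕜, ‖c‖ = 1 → f (∑ i, c i • x i) = (‖∑ i, c i • x i‖ : 𝕜) → f = h := by
  obtain ⟨s, hs1, hs2⟩ := TopologicalSpace.exists_countable_dense E
  have hopen : ∀ p : s × ℕ, IsOpen (U 𝕜 n (p.1 : E) (1 / ((p.2 : ℝ) + 1))) :=
    fun p => isOpen_U n _ _
  have hdense : ∀ p : s × ℕ, Dense (U 𝕜 n (p.1 : E) (1 / ((p.2 : ℝ) + 1))) :=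
    fun p => dense_U hn _ (by positivity)
  have _ : Countable s := hs1.to_subtype
  have hLI1 : IsOpen {x : Fin n → E | LinearIndependent 𝕜 x} := isOpen_setOfPred_linearIndependent
  have hLI2 : Dense {x : Fin n → E | LinearIndependent 𝕜 x} := dense_linearIndependent hn
  have hD := dense_iInter_of_isOpen hopen hdense
  have hG : IsGδ (⋂ p : s × ℕ, U 𝕜 n (p.1 : E) (1 / ((p.2 : ℝ) + 1))) :=
    IsGδ.iInter_of_isOpen hopen
  refine ⟨{x : Fin n → E | LinearIndependent 𝕜 x} ∩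
    ⋂ p : s × ℕ, U 𝕜 n (p.1 : E) (1 / ((p.2 : ℝ) + 1)), hLI1.isGδ.inter hG, ?_, ?_⟩
  · exact hLI2.inter_of_isOpen_left hD hLI1
  · rintro x ⟨hx1, hx2⟩
    refine ⟨hx1, ?_⟩
    intro f h hf hh hfh c hc hfc
    have hfs : ∀ e ∈ s, f e = h e := by
      intro e he
      by_contra hne
      have hpos : 0 < ‖f e - h e‖ := norm_pos_iff.2 (sub_ne_zero.2 hne)
      obtain ⟨k, hk⟩ := exists_nat_one_div_lt hpos
      rw [mem_iInter] at hx2
      have := hx2 (⟨e, he⟩, k) f h hf hh hfh c hc hfc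
      simp only at this
      linarith
    apply ContinuousLinearMap.coeFn_injective
    exact Continuous.ext_on hs2 f.continuous h.continuous hfs

end Pool.Agent.helper33.Cheb
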