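import Mathlib
import Pool.Agent.helper33.Baire
import Pool.Agent.helper33.ChebDefs

set_option autoImplicit false

open Set

namespace Pool.Agent.helper33.Cheb

variable {𝕜 : Type*} [RCLike 𝕜] {E : Type*} [NormedAddCommGroup E] [NormedSpace 𝕜 E]

/-- Functionals on finite-dimensional spaces attain their norm. -/
lemma attain {G : Type*} [NormedAddCommGroup G] [NormedSpace 𝕜 G] [FiniteDimensional 𝕜 G]
    (φ : StrongDual 𝕜 G) (hφ : ‖φ‖ ≠ 0) : ∃ v : G, v ≠ 0 ∧ φ v = (‖φ‖ : 𝕜) * (‖v‖ : 𝕜) := by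
  have _ : ProperSpace G := FiniteDimensional.proper 𝕜 G
  have hpos : 0 < ‖φ‖ := lt_of_le_of_ne (norm_nonneg _) (Ne.symm hφ)
  have hcomp : IsCompact (Metric.closedBall (0 : G) 1) := isCompact_closedBall 0 1
  obtain ⟨v0, hv0, hmax⟩ := hcomp.exists_isMaxOn (Metric.nonempty_closedBall.2 zero_le_one)
    (f := fun v => ‖φ v‖) (by fun_prop)
  have hv0' : ‖v0‖ ≤ 1 := by simpa using hv0
  have h1 : ‖φ‖ ≤ ‖φ v0‖ := by
    rw [← ContinuousLinearMap.sSup_unitClosedBall_eq_norm φ]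
    apply csSup_le
    · exact (Metric.nonempty_closedBall.2 zero_le_one).image _
    · rintro _ ⟨w, hw, rfl⟩
      exact hmax hw
  have h2 : ‖φ v0‖ ≤ ‖φ‖ := by
    calc ‖φ v0‖ ≤ ‖φ‖ * ‖v0‖ := φ.le_opNorm _
      _ ≤ ‖φ‖ * 1 := mul_le_mul_of_nonneg_left hv0' (norm_nonneg _)
      _ = ‖φ‖ := mul_one _
  have h3 : ‖φ v0‖ = ‖φ‖ := le_antisymm h2 h1
  have hz : φ v0 ≠ 0 := by
    rw [← norm_pos_iff, h3]
    exact hpos
  set u : 𝕜 := (‖φ v0‖ : 𝕜) / φ v0 with hu
  have hun : ‖u‖ = 1 := by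
    rw [hu, norm_div, RCLike.norm_ofReal, abs_norm]
    exact div_self (norm_ne_zero_iff.2 hz)
  have huz : φ (u • v0) = (‖φ‖ : 𝕜) := by
    rw [map_smul, smul_eq_mul, hu, div_mul_cancel₀ _ hz, h3]
  have hnorm : ‖u • v0‖ = 1 := by
    apply le_antisymm
    · rw [norm_smul, hun, one_mul]
      exact hv0'
    · have h4 : ‖φ (u • v0)‖ ≤ ‖φ‖ * ‖u • v0‖ := φ.le_opNorm _
      rw [huz, RCLike.norm_ofReal, abs_norm] at h4
      by_contra hlt
      push Not at hlt
      nlinarith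
  refine ⟨u • v0, ?_, ?_⟩
  · intro h0
    rw [h0, norm_zero] at hnorm
    norm_num at hnorm
  · rw [huz, hnorm]
    simp

lemma mem_annih {n : ℕ} {x : Fin n → E} {f : StrongDual 𝕜 E} :
    f ∈ annih x ↔ ∀ i, f (x i) = 0 := Iff.rfl

lemma annih_closed {n : ℕ} (x : Fin n → E) :
    IsClosed (WeakDual.toStrongDual ⁻¹' ((annih x : Submodule 𝕜 (StrongDual 𝕜 E)) :
      Set (StrongDual 𝕜 E)) : Set (WeakDual 𝕜 E)) := by
  have : (WeakDual.toStrongDual ⁻¹' ((annih x : Submodule 𝕜 (StrongDual 𝕜 E)) :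
      Set (StrongDual 𝕜 E)) : Set (WeakDual 𝕜 E)) = ⋂ i, {f : WeakDual 𝕜 E | f (x i) = 0} := by
    ext f
    simp only [mem_preimage, SetLike.mem_coe, mem_annih, mem_iInter, mem_ofPred_eq]
    rfl
  rw [this]
  exact isClosed_iInter fun i => isClosed_eq (WeakDual.eval_continuous (x i)) continuous_const

lemma annih_rank {n : ℕ} {x : Fin n → E} (hx : LinearIndependent 𝕜 x) :
    Module.rank 𝕜 (StrongDual 𝕜 E ⧸ (annih x : Submodule 𝕜 (StrongDual 𝕜 E))) = n := by
  classical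
  let T : StrongDual 𝕜 E →ₗ[𝕜] (Fin n → 𝕜) :=
    { toFun := fun f i => f (x i)
      map_add' := by intro f g; rfl
      map_smul' := by intro c f; rfl }
  have hker : LinearMap.ker T = annih x := by
    ext f
    rw [LinearMap.mem_ker, mem_annih]
    constructor
    · intro h i
      exact congrFun h i
    · intro h
      funext i
      exact h i
  have hsurj : Function.Surjective T := by
    intro c
    let b := Module.Basis.span hx
    have _ : FiniteDimensional 𝕜 (Submodule.span 𝕜 (range x)) :=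
      Module.Basis.finiteDimensional_of_finite b
    let ψ : StrongDual 𝕜 (Submodule.span 𝕜 (range x)) :=
      LinearMap.toContinuousLinearMap (b.constr 𝕜 c)
    obtain ⟨k, hk, -⟩ := exists_extension_norm_eq _ ψ
    refine ⟨k, ?_⟩
    funext i
    change k (x i) = c i
    have h1 : ((b i : Submodule.span 𝕜 (range x)) : E) = x i :=
      congrArg Subtype.val (Module.Basis.span_apply hx i)
    rw [← h1, hk]
    change b.constr 𝕜 c (b i) = c i
    rw [Module.Basis.constr_basis]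
  have e := LinearMap.quotKerEquivOfSurjective T hsurj
  rw [hker] at e
  have h1 := e.lift_rank_eq
  rw [rank_fin_fun] at h1
  simpa using h1

/-- If the norm-attaining functionals on the span have unique norm-preserving extensions, then the
annihilator is Chebyshev. -/
lemma annih_chebyshev {n : ℕ} {x : Fin n → E}
    (hx : ∀ f h : StrongDual 𝕜 E, ‖f‖ ≤ 1 → ‖h‖ ≤ 1 → (∀ i, f (x i) = h (x i)) →
        ∀ c : Fin n → 𝕜, ‖c‖ = 1 → f (∑ i, c i • x i) = (‖∑ i, c i • x i‖ : 𝕜) → f = h)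
    (f : StrongDual 𝕜 E) : ∃! g : StrongDual 𝕜 E,
      g ∈ (annih x : Submodule 𝕜 (StrongDual 𝕜 E)) ∧
        ‖f - g‖ = Metric.infDist f ((annih x : Submodule 𝕜 (StrongDual 𝕜 E)) :
          Set (StrongDual 𝕜 E)) := by
  classical
  set G : Submodule 𝕜 E := Submodule.span 𝕜 (range x) with hG
  have _ : FiniteDimensional 𝕜 G := FiniteDimensional.span_of_finite 𝕜 (finite_range x)
  have hxG : ∀ i, x i ∈ G := fun i => Submodule.subset_span (mem_range_self i)
  let φ : StrongDual 𝕜 G := f.comp G.subtypeL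
  obtain ⟨k, hk, hkn⟩ := exists_extension_norm_eq G φ
  have hkx : ∀ i, k (x i) = f (x i) := fun i => hk ⟨x i, hxG i⟩
  have hmem : f - k ∈ (annih x : Submodule 𝕜 (StrongDual 𝕜 E)) := by
    rw [mem_annih]
    intro i
    rw [sub_apply, hkx, sub_self]
  have hlow : ∀ g ∈ (annih x : Submodule 𝕜 (StrongDual 𝕜 E)), ‖φ‖ ≤ ‖f - g‖ := by
    intro g hg
    have hgG : ∀ v ∈ G, g v = 0 := by
      intro v hv
      have hle : G ≤ LinearMap.ker (g : E →ₗ[𝕜] 𝕜) := by
        rw [hG, Submodule.span_le]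
        rintro _ ⟨i, rfl⟩
        exact hg i
      exact hle hv
    refine ContinuousLinearMap.opNorm_le_bound _ (norm_nonneg _) ?_
    intro v
    have h1 : φ v = (f - g) (v : E) := by
      rw [sub_apply, hgG v v.2, sub_zero]
      rfl
    rw [h1]
    exact (f - g).le_opNorm _
  have hinf : Metric.infDist f ((annih x : Submodule 𝕜 (StrongDual 𝕜 E)) :
      Set (StrongDual 𝕜 E)) = ‖φ‖ := by
    apply le_antisymm
    · have h1 := Metric.infDist_le_dist_of_mem (x := f)
        (s := ((annih x : Submodule 𝕜 (StrongDual 𝕜 E)) : Set (StrongDual 𝕜 E))) hmem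
      rw [dist_eq_norm, sub_sub_cancel, hkn] at h1
      exact h1
    · rw [Metric.le_infDist ⟨_, hmem⟩]
      intro g hg
      rw [dist_eq_norm]
      exact hlow g hg
  refine ⟨f - k, ⟨hmem, ?_⟩, ?_⟩
  · rw [sub_sub_cancel, hkn, hinf]
  · rintro g ⟨hg, hgn⟩
    rw [hinf] at hgn
    by_cases hr : ‖φ‖ = 0
    · rw [hr] at hgn hkn
      have h1 : f - g = 0 := norm_eq_zero.1 hgn
      have h2 : k = 0 := norm_eq_zero.1 hkn
      rw [h2, sub_zero]
      exact (sub_eq_zero.1 h1).symm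
    · have hrpos : 0 < ‖φ‖ := lt_of_le_of_ne (norm_nonneg _) (Ne.symm hr)
      have hr𝕜 : (‖φ‖ : 𝕜) ≠ 0 := by
        rw [Ne, RCLike.ofReal_eq_zero]
        exact hr
      obtain ⟨v, hv0, hv⟩ := attain φ hr
      obtain ⟨a, ha⟩ := (Submodule.mem_span_range_iff_exists_fun 𝕜).1 v.2
      have ha0 : a ≠ 0 := by
        rintro rfl
        apply hv0
        apply Subtype.ext
        rw [← ha]
        simp
      have hapos : 0 < ‖a‖ := norm_pos_iff.2 ha0
      have hv' : f (v : E) = (‖φ‖ : 𝕜) * (‖(v : E)‖ : 𝕜) := hv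
      have hgv : g (v : E) = 0 := by
        rw [← ha, map_sum]
        apply Finset.sum_eq_zero
        intro i _
        rw [map_smul, hg i, smul_zero]
      have hsum : ∑ i, ((‖a‖ : 𝕜)⁻¹ • a) i • x i = (‖a‖ : 𝕜)⁻¹ • (v : E) := by
        rw [← ha, Finset.smul_sum]
        apply Finset.sum_congr rfl
        intro i _
        rw [Pi.smul_apply, smul_smul, smul_eq_mul]
      have key := hx ((‖φ‖ : 𝕜)⁻¹ • (f - g)) ((‖φ‖ : 𝕜)⁻¹ • k) ?_ ?_ ?_ ((‖a‖ : 𝕜)⁻¹ • a) ?_ ?_
      · have h1 : f - g = k := by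
          have h2 := congrArg (fun w => (‖φ‖ : 𝕜) • w) key
          simp only [smul_smul, mul_inv_cancel₀ hr𝕜, one_smul] at h2
          exact h2
        rw [← h1, sub_sub_cancel]
      · rw [norm_smul, norm_inv, RCLike.norm_ofReal, abs_norm, hgn]
        exact (inv_mul_cancel₀ hr).le
      · rw [norm_smul, norm_inv, RCLike.norm_ofReal, abs_norm, hkn]
        exact (inv_mul_cancel₀ hr).le
      · intro i
        rw [smul_apply, smul_apply, sub_apply, hg i, sub_zero, hkx]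
      · rw [norm_smul, norm_inv, RCLike.norm_ofReal, abs_norm]
        exact inv_mul_cancel₀ hapos.ne'
      · rw [hsum, smul_apply, map_smul, sub_apply, hgv, sub_zero, hv', norm_smul, norm_inv,
          RCLike.norm_ofReal, abs_norm, smul_eq_mul, smul_eq_mul]
        push_cast
        field_simp

/-- For a separable Banach space the generic tuple has a Chebyshev annihilator. -/
theorem generic_chebyshev [CompleteSpace E] [TopologicalSpace.SeparableSpace E] {n : ℕ}
    (hn : (n : Cardinal) ≤ Module.rank 𝕜 E) :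
    ∃ T : Set (Fin n → E), IsGδ T ∧ Dense T ∧ ∀ x ∈ T, LinearIndependent 𝕜 x ∧
      ∀ f : StrongDual 𝕜 E, ∃! g : StrongDual 𝕜 E,
        g ∈ (annih x : Submodule 𝕜 (StrongDual 𝕜 E)) ∧
        ‖f - g‖ = Metric.infDist f ((annih x : Submodule 𝕜 (StrongDual 𝕜 E)) :
          Set (StrongDual 𝕜 E)) := by
  obtain ⟨T, hT1, hT2, hT3⟩ := residual_sep (𝕜 := 𝕜) (E := E) hn
  exact ⟨T, hT1, hT2, fun x hx => ⟨(hT3 x hx).1, annih_chebyshev (hT3 x hx).2⟩⟩

theorem hasChebyshev_of_complete [CompleteSpace E] [TopologicalSpace.SeparableSpace E] {n : ℕ}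
    (hn : (n : Cardinal) ≤ Module.rank 𝕜 E) : HasChebyshev 𝕜 E n := by
  obtain ⟨T, -, hT2, hT3⟩ := generic_chebyshev (𝕜 := 𝕜) (E := E) hn
  obtain ⟨x, hx⟩ := hT2.nonempty
  exact ⟨annih x, annih_closed x, annih_rank (hT3 x hx).1, (hT3 x hx).2⟩

end Pool.Agent.helper33.Cheb
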