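import Mathlib
import Pool.Agent.helper97.GUE.Model

/-! Module (E): elementary measure preserving maps between the Gaussian models (by helper33). -/

set_option autoImplicit false
set_option linter.unusedSectionVars false
set_option linter.unusedSimpArgs false
open MeasureTheory ProbabilityTheory Filter Topology
open scoped NNReal ENNReal Matrix ComplexOrder

namespace Pool.Agent.helper97.GUE

/-- (E1) splitting off the last groups -/
theorem measurePreserving_merge {ν : Type*} [Fintype ν] (N N' : ℕ) :
    MeasurePreserving (fun (p : (Idx ν N → ℝ) × (Idx ν N → ℝ)) (c : Idx ν N) =>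
        if (c.1 : ℕ) < N' then p.1 c else p.2 c)
      ((gm ν N).prod (gm ν N)) (gm ν N) := by
  refine ⟨?_, ?_⟩
  · refine measurable_pi_lambda _ fun c => ?_
    by_cases h : (c.1 : ℕ) < N'
    · simp only [h, if_true]
      exact (measurable_pi_apply c).comp measurable_fst
    · simp only [h, if_false]
      exact (measurable_pi_apply c).comp measurable_snd
  · unfold gm
    refine (Measure.pi_eq fun s hs => ?_).symm
    have hmeas : Measurable (fun (p : (Idx ν N → ℝ) × (Idx ν N → ℝ)) (c : Idx ν N) =>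
        if (c.1 : ℕ) < N' then p.1 c else p.2 c) := by
      refine measurable_pi_lambda _ fun c => ?_
      by_cases h : (c.1 : ℕ) < N'
      · simp only [h, if_true]
        exact (measurable_pi_apply c).comp measurable_fst
      · simp only [h, if_false]
        exact (measurable_pi_apply c).comp measurable_snd
    rw [Measure.map_apply hmeas (MeasurableSet.univ_pi hs)]
    have hpre : (fun (p : (Idx ν N → ℝ) × (Idx ν N → ℝ)) (c : Idx ν N) =>
        if (c.1 : ℕ) < N' then p.1 c else p.2 c) ⁻¹' (Set.univ.pi s)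
        = (Set.univ.pi fun c : Idx ν N => if (c.1 : ℕ) < N' then s c else Set.univ) ×ˢ
          (Set.univ.pi fun c : Idx ν N => if (c.1 : ℕ) < N' then Set.univ else s c) := by
      ext p
      simp only [Set.mem_preimage, Set.mem_pi, Set.mem_univ, forall_true_left, Set.mem_prod]
      constructor
      · intro h
        refine ⟨fun c => ?_, fun c => ?_⟩
        · have := h c
          by_cases hc : (c.1 : ℕ) < N'
          · simpa [hc] using this
          · simp [hc]
        · have := h c
          by_cases hc : (c.1 : ℕ) < N'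
          · simp [hc]
          · simpa [hc] using this
      · rintro ⟨h1, h2⟩ c
        have h1 := h1 c
        have h2 := h2 c
        by_cases hc : (c.1 : ℕ) < N'
        · simpa [hc] using h1
        · simpa [hc] using h2
    rw [hpre, Measure.prod_prod, Measure.pi_pi, Measure.pi_pi, ← Finset.prod_mul_distrib]
    refine Finset.prod_congr rfl fun c _ => ?_
    by_cases hc : (c.1 : ℕ) < N'
    · simp [hc]
    · simp [hc]

/-- embedding of coordinates -/
def emb {ν : Type*} {N' N : ℕ} (h : N' ≤ N) (c : Idx ν N') : Idx ν N :=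
  (Fin.castLE h c.1, c.2.1, Fin.castLE h c.2.2.1, c.2.2.2)

theorem emb_injective {ν : Type*} {N' N : ℕ} (h : N' ≤ N) :
    Function.Injective (emb (ν := ν) h) := by
  rintro ⟨a, b, c, d⟩ ⟨a', b', c', d'⟩ heq
  simp only [emb, Prod.mk.injEq, Fin.castLE_inj] at heq
  obtain ⟨h1, h2, h3, h4⟩ := heq
  simp [h1, h2, h3, h4]

/-- (E2) restriction to the leading block is measure preserving ... -/
theorem measurePreserving_restrict {ν : Type*} [Fintype ν] {N' N : ℕ} (h : N' ≤ N) :
    MeasurePreserving (fun (ξ : Idx ν N → ℝ) (c : Idx ν N') => ξ (emb h c)) (gm ν N) (gm ν N') := by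
  have hmeas : ∀ c : Idx ν N', Measurable fun ξ : Idx ν N → ℝ => ξ (emb h c) :=
    fun c => measurable_pi_apply _
  refine ⟨measurable_pi_lambda _ hmeas, ?_⟩
  have h1 : iIndepFun (fun (c : Idx ν N) (ξ : Idx ν N → ℝ) => ξ c)
      (Measure.pi fun _ : Idx ν N => gaussianReal 0 1) :=
    iIndepFun_pi (X := fun _ => id) (fun _ => aemeasurable_id)
  have h2 := h1.precomp (emb_injective (ν := ν) h)
  have h3 := (iIndepFun_iff_map_fun_eq_pi_map (fun c => (hmeas c).aemeasurable)).1 h2
  unfold gm
  refine h3.trans ?_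
  congr 1
  ext c : 1
  exact (measurePreserving_eval (fun _ : Idx ν N => gaussianReal 0 1) (emb h c)).map_eq

/-- ... and the leading block of the model of size `N` is a multiple of the model of size `N'` -/
theorem gue_leading {ν : Type*} [Fintype ν] {N' N : ℕ} (hN' : 0 < N') (h : N' ≤ N)
    (z : Idx ν N → ℂ) (i : ν) (p q : Fin N') :
    gue N z i (Fin.castLE h p) (Fin.castLE h q)
      = ((Real.sqrt (N' / N) : ℝ) : ℂ) * gue N' (fun c => z (emb h c)) i p q := by
  have hN : 0 < N := lt_of_lt_of_le hN' h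
  have hNr : (0 : ℝ) < N := by exact_mod_cast hN
  have hNr' : (0 : ℝ) < N' := by exact_mod_cast hN'
  have e1 : ((Real.sqrt (N' / N) : ℝ) : ℂ) / ((Real.sqrt (2 * N') : ℝ) : ℂ)
      = 1 / ((Real.sqrt (2 * N) : ℝ) : ℂ) := by
    rw [← Complex.ofReal_div, ← Real.sqrt_div (by positivity), ← Complex.ofReal_one,
      ← Complex.ofReal_div, ← Real.sqrt_one, ← Real.sqrt_div (by positivity)]
    congr 2
    field_simp
  have e2 : ((Real.sqrt (N' / N) : ℝ) : ℂ) / ((Real.sqrt N' : ℝ) : ℂ)
      = 1 / ((Real.sqrt N : ℝ) : ℂ) := by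
    rw [← Complex.ofReal_div, ← Real.sqrt_div (by positivity), ← Complex.ofReal_one,
      ← Complex.ofReal_div, ← Real.sqrt_one, ← Real.sqrt_div (by positivity)]
    congr 2
    field_simp
  rcases lt_trichotomy p q with hpq | hpq | hpq
  · have hpq' : Fin.castLE h p < Fin.castLE h q := by simpa using hpq
    rw [gue_apply_gt _ _ _ _ _ hpq', gue_apply_gt _ _ _ _ _ hpq]
    rw [div_eq_mul_one_div, ← e1]
    simp only [emb]
    ring
  · subst hpq
    rw [gue_apply_diag, gue_apply_diag]
    rw [div_eq_mul_one_div, ← e2]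
    simp only [emb]
    ring
  · have hpq' : Fin.castLE h q < Fin.castLE h p := by simpa using hpq
    rw [gue_apply_lt _ _ _ _ _ hpq', gue_apply_lt _ _ _ _ _ hpq]
    rw [div_eq_mul_one_div, ← e1]
    simp only [emb]
    ring

/-- surjectivity of the coordinates with bounds -/
theorem exists_coords {ν : Type*} [Fintype ν] {N : ℕ} (Y : ν → Matrix (Fin N) (Fin N) ℂ) :
    ∃ z : Idx ν N → ℂ, (∀ i, gue N z i = Y i) ∧
      (∀ (j k : Fin N) (i : ν) (b : Bool), ‖z (j, i, k, b)‖
        ≤ Real.sqrt (2 * N) * (‖Y i j k‖ + ‖Y i k j‖)) := by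
  rcases Nat.eq_zero_or_pos N with h0 | hN
  · subst h0
    refine ⟨fun _ => 0, fun i => ?_, fun j => j.elim0⟩
    ext p
    exact p.elim0
  have hNr : (0 : ℝ) < N := by exact_mod_cast hN
  have hs2 : (0 : ℝ) < Real.sqrt (2 * N) := Real.sqrt_pos.2 (by positivity)
  have hs1 : (0 : ℝ) < Real.sqrt N := Real.sqrt_pos.2 (by positivity)
  have hs2c : ((Real.sqrt (2 * N) : ℝ) : ℂ) ≠ 0 := by exact_mod_cast hs2.ne'
  have hs1c : ((Real.sqrt N : ℝ) : ℂ) ≠ 0 := by exact_mod_cast hs1.ne'
  refine ⟨fun c => if c.2.2.1 < c.1 then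
      (if c.2.2.2 then ((Real.sqrt (2 * N) : ℝ) : ℂ) *
          ((Y c.2.1 c.1 c.2.2.1 - Y c.2.1 c.2.2.1 c.1) / (2 * Complex.I))
        else ((Real.sqrt (2 * N) : ℝ) : ℂ) * ((Y c.2.1 c.1 c.2.2.1 + Y c.2.1 c.2.2.1 c.1) / 2))
      else if c.2.2.1 = c.1 then (if c.2.2.2 then 0 else
        ((Real.sqrt N : ℝ) : ℂ) * Y c.2.1 c.1 c.1) else 0, fun i => ?_, fun j k i b => ?_⟩
  · ext p q
    rcases lt_trichotomy p q with hpq | hpq | hpq
    · rw [gue_apply_gt _ _ _ _ _ hpq]
      simp only [hpq, if_true, Bool.false_eq_true, if_false]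
      field_simp
      ring
    · subst hpq
      rw [gue_apply_diag]
      simp only [lt_irrefl, if_false, if_true, Bool.false_eq_true]
      field_simp
    · rw [gue_apply_lt _ _ _ _ _ hpq]
      simp only [hpq, if_true, Bool.false_eq_true, if_false]
      field_simp
      ring
  · simp only
    have hnn : 0 ≤ Real.sqrt (2 * N) * (‖Y i j k‖ + ‖Y i k j‖) := by positivity
    split_ifs with h1 h2 h2 h3
    · rw [norm_mul, Complex.norm_real, Real.norm_of_nonneg hs2.le]
      refine mul_le_mul_of_nonneg_left ?_ hs2.le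
      rw [norm_div, norm_mul, Complex.norm_I, Complex.norm_two, mul_one, div_le_iff₀ (by norm_num)]
      refine (norm_sub_le _ _).trans ?_
      nlinarith [norm_nonneg (Y i j k), norm_nonneg (Y i k j)]
    · rw [norm_mul, Complex.norm_real, Real.norm_of_nonneg hs2.le]
      refine mul_le_mul_of_nonneg_left ?_ hs2.le
      rw [norm_div, Complex.norm_two, div_le_iff₀ (by norm_num)]
      refine (norm_add_le _ _).trans ?_
      nlinarith [norm_nonneg (Y i j k), norm_nonneg (Y i k j)]
    · simpa using hnn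
    · subst h2
      rw [norm_mul, Complex.norm_real, Real.norm_of_nonneg hs1.le]
      refine mul_le_mul ?_ ?_ (norm_nonneg _) hs2.le
      · apply Real.sqrt_le_sqrt
        nlinarith
      · nlinarith [norm_nonneg (Y i k k)]
    · simpa using hnn

end Pool.Agent.helper97.GUE
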