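import Mathlib
import Pool.Agent.helper97.GUE.LawDef
import Pool.Agent.helper75.RndBlock
import Pool.Agent.helper16.GUE.Cap
import Pool.Agent.helper16.GUE.CapBlocks
import Pool.Agent.helper16.GUE.Scaling

/-! (F) from the doubly stochastic irreducible case to all rank non-decreasing families
(by helper33). -/

set_option autoImplicit false
set_option linter.unusedSectionVars false
open MeasureTheory ProbabilityTheory Filter Topology
open scoped NNReal ENNReal Matrix ComplexOrder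

namespace Pool.Agent.helper97.GUE

variable {κ ν : Type} [Fintype κ] [DecidableEq κ] [Fintype ν]

theorem LawT_scale {a a' : ν → Matrix κ κ ℂ} {D ℓ : ℝ} (hD : 0 < D)
    (h : ∀ (N : ℕ) (X : ν → Matrix (Fin N) (Fin N) ℂ),
      ‖(ksum a' X).det‖ = D ^ N * ‖(ksum a X).det‖) (hL : LawT a' ℓ) :
    LawT a (ℓ - Real.log D) := by
  intro δ hδ
  obtain ⟨C, hC⟩ := hL δ hδ
  refine ⟨C, ?_⟩
  filter_upwards [hC] with N hN
  refine le_trans (measure_mono ?_) hN
  intro ξ hξ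
  simp only [Set.mem_ofPred_eq] at hξ ⊢
  intro hcon
  apply hξ
  rw [h] at hcon
  have hDN : 0 < D ^ N := by positivity
  have e1 : ∀ t : ℝ, Real.exp (N * (ℓ - Real.log D + t)) = Real.exp (N * (ℓ + t)) / D ^ N := by
    intro t
    have : D ^ N = Real.exp (N * Real.log D) := by
      rw [Real.exp_nat_mul, Real.exp_log hD]
    rw [this, ← Real.exp_sub]
    congr 1; ring
  constructor
  · have := e1 (-δ)
    rw [← sub_eq_add_neg, ← sub_eq_add_neg] at this
    rw [this, div_le_iff₀' hDN]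
    exact hcon.1
  · rw [e1, le_div_iff₀' hDN]
    exact hcon.2

theorem LawT_mul {κ₁ κ₂ : Type} [Fintype κ₁] [DecidableEq κ₁] [Fintype κ₂] [DecidableEq κ₂]
    {a : ν → Matrix κ κ ℂ} {a₁ : ν → Matrix κ₁ κ₁ ℂ} {a₂ : ν → Matrix κ₂ κ₂ ℂ} {ℓ₁ ℓ₂ : ℝ}
    (h : ∀ (N : ℕ) (X : ν → Matrix (Fin N) (Fin N) ℂ),
      ‖(ksum a X).det‖ = ‖(ksum a₁ X).det‖ * ‖(ksum a₂ X).det‖)
    (h1 : LawT a₁ ℓ₁) (h2 : LawT a₂ ℓ₂) : LawT a (ℓ₁ + ℓ₂) := by
  intro δ hδ
  obtain ⟨C₁, hC₁⟩ := h1 (δ / 2) (by positivity)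
  obtain ⟨C₂, hC₂⟩ := h2 (δ / 2) (by positivity)
  refine ⟨|C₁| + |C₂|, ?_⟩
  filter_upwards [hC₁, hC₂, eventually_gt_atTop 0] with N hN1 hN2 hN0
  have hNr : (0 : ℝ) < N := by exact_mod_cast hN0
  have hsplit : ENNReal.ofReal ((|C₁| + |C₂|) / (N : ℝ) ^ 2)
      = ENNReal.ofReal (|C₁| / (N : ℝ) ^ 2) + ENNReal.ofReal (|C₂| / (N : ℝ) ^ 2) := by
    rw [add_div, ENNReal.ofReal_add (by positivity) (by positivity)]
  rw [hsplit]
  have hN1' := hN1.trans (ENNReal.ofReal_le_ofReal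
    (div_le_div_of_nonneg_right (le_abs_self C₁) (by positivity)))
  have hN2' := hN2.trans (ENNReal.ofReal_le_ofReal
    (div_le_div_of_nonneg_right (le_abs_self C₂) (by positivity)))
  refine le_trans (measure_mono ?_) ((measure_union_le _ _).trans (add_le_add hN1' hN2'))
  intro ξ hξ
  simp only [Set.mem_ofPred_eq, Set.mem_union] at hξ ⊢
  by_contra hcon
  push Not at hcon
  obtain ⟨⟨a1, a2⟩, b1, b2⟩ := hcon
  apply hξ
  rw [h]
  constructor
  · calc Real.exp (N * (ℓ₁ + ℓ₂ - δ))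
        = Real.exp (N * (ℓ₁ - δ / 2)) * Real.exp (N * (ℓ₂ - δ / 2)) := by
          rw [← Real.exp_add]; congr 1; ring
      _ ≤ _ := mul_le_mul a1 b1 (Real.exp_pos _).le (norm_nonneg _)
  · calc _ ≤ Real.exp (N * (ℓ₁ + δ / 2)) * Real.exp (N * (ℓ₂ + δ / 2)) :=
          mul_le_mul a2 b2 (norm_nonneg _) (Real.exp_pos _).le
      _ = Real.exp (N * (ℓ₁ + ℓ₂ + δ)) := by
          rw [← Real.exp_add]; congr 1; ring

/-- multiplying the coefficients by invertible matrices -/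
theorem ksum_mul_mul {N : ℕ} (a : ν → Matrix κ κ ℂ) (p q : Matrix κ κ ℂ)
    (X : ν → Matrix (Fin N) (Fin N) ℂ) :
    ksum (fun i => p * a i * q) X
      = Matrix.kronecker p 1 * ksum a X * Matrix.kronecker q 1 := by
  unfold ksum
  rw [Matrix.mul_sum, Matrix.sum_mul]
  refine Finset.sum_congr rfl fun i _ => ?_
  unfold Matrix.kronecker
  rw [← Matrix.mul_kronecker_mul, ← Matrix.mul_kronecker_mul, Matrix.one_mul, Matrix.mul_one]

theorem det_ksum_mul_mul {N : ℕ} (a : ν → Matrix κ κ ℂ) (p q : Matrix κ κ ℂ)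
    (X : ν → Matrix (Fin N) (Fin N) ℂ) :
    ‖(ksum (fun i => p * a i * q) X).det‖ = (‖p.det‖ * ‖q.det‖) ^ N * ‖(ksum a X).det‖ := by
  rw [ksum_mul_mul, Matrix.det_mul, Matrix.det_mul]
  unfold Matrix.kronecker
  rw [Matrix.det_kronecker, Matrix.det_kronecker]
  simp only [Matrix.det_one, one_pow, mul_one, norm_mul, norm_pow, Fintype.card_fin]
  ring

theorem ksum_reindex {κ' : Type} [Fintype κ'] [DecidableEq κ'] {N : ℕ} (e : κ ≃ κ')
    (a : ν → Matrix κ κ ℂ) (X : ν → Matrix (Fin N) (Fin N) ℂ) :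
    ksum (fun i => (a i).reindex e e) X
      = (ksum a X).reindex (e.prodCongr (Equiv.refl _)) (e.prodCongr (Equiv.refl _)) := by
  ext ⟨x, i⟩ ⟨y, j⟩
  rw [ksum_apply]
  simp only [Matrix.reindex_apply, Matrix.submatrix_apply]
  rw [ksum_apply]
  rfl

theorem det_ksum_fromBlocks {κ₁ κ₂ : Type} [Fintype κ₁] [DecidableEq κ₁] [Fintype κ₂]
    [DecidableEq κ₂] {N : ℕ} (a₁ : ν → Matrix κ₁ κ₁ ℂ) (b : ν → Matrix κ₁ κ₂ ℂ)
    (a₂ : ν → Matrix κ₂ κ₂ ℂ) (X : ν → Matrix (Fin N) (Fin N) ℂ) :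
    (ksum (fun i => Matrix.fromBlocks (a₁ i) (b i) 0 (a₂ i)) X).det
      = (ksum a₁ X).det * (ksum a₂ X).det := by
  rw [← Matrix.det_reindex_self (Equiv.sumProdDistrib κ₁ κ₂ (Fin N))]
  have : Matrix.reindex (Equiv.sumProdDistrib κ₁ κ₂ (Fin N)) (Equiv.sumProdDistrib κ₁ κ₂ (Fin N))
      (ksum (fun i => Matrix.fromBlocks (a₁ i) (b i) 0 (a₂ i)) X)
      = Matrix.fromBlocks (ksum a₁ X)
        (Matrix.of fun x y => ∑ i, b i x.1 y.1 * X i x.2 y.2) 0 (ksum a₂ X) := by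
    ext x y
    rcases x with ⟨x, i⟩ | ⟨x, i⟩ <;> rcases y with ⟨y, j⟩ | ⟨y, j⟩ <;>
      simp [ksum_apply]
  rw [this, Matrix.det_fromBlocks_zero₂₁]

/-- invariance of the capacity under reindexing -/
theorem cap_reindex {κ' : Type} [Fintype κ'] [DecidableEq κ'] (e : κ ≃ κ')
    (a : ν → Matrix κ κ ℂ) : cap (fun i => (a i).reindex e e) = cap a := by
  have key : ∀ b : Matrix κ κ ℂ, (∑ i, (a i).reindex e e * b.reindex e e * ((a i).reindex e e)ᴴ)
      = (∑ i, a i * b * (a i)ᴴ).reindex e e := by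
    intro b
    have e1 : ∀ i, (a i).reindex e e * b.reindex e e * ((a i).reindex e e)ᴴ
        = (a i * b * (a i)ᴴ).reindex e e := by
      intro i
      simp only [Matrix.reindex_apply, Matrix.conjTranspose_submatrix, Matrix.submatrix_mul_equiv]
    simp_rw [e1]
    ext x y
    simp [Matrix.sum_apply]
  unfold cap
  congr 1
  ext c
  constructor
  · rintro ⟨b, hb, rfl⟩
    refine ⟨b.reindex e.symm e.symm, ?_, ?_⟩
    · rw [Matrix.reindex_apply]
      exact hb.submatrix e.injective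
    · have h1 := key (b.reindex e.symm e.symm)
      have h2 : (b.reindex e.symm e.symm).reindex e e = b := by
        ext x y; simp
      rw [h2] at h1
      rw [h1, Matrix.det_reindex_self, Matrix.det_reindex_self]
  · rintro ⟨b, hb, rfl⟩
    refine ⟨b.reindex e e, ?_, ?_⟩
    · rw [Matrix.reindex_apply]
      exact hb.submatrix e.symm.injective
    · rw [key, Matrix.det_reindex_self, Matrix.det_reindex_self]

/-- capacity one for doubly stochastic families -/
theorem cap_ds (a : ν → Matrix κ κ ℂ) (h1 : ∑ i, a i * (a i)ᴴ = 1)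
    (h2 : ∑ i, (a i)ᴴ * a i = 1) : cap a = 1 := by
  unfold cap
  apply le_antisymm
  · apply csInf_le
    · refine ⟨0, ?_⟩
      rintro c ⟨b, hb, rfl⟩
      exact div_nonneg (Pool.Agent.helper16.GUE.det_re_nonneg
        (Pool.Agent.helper16.GUE.posSemidef_eta a hb.posSemidef))
        (Pool.Agent.helper16.GUE.det_re_pos hb).le
    · refine ⟨1, Matrix.PosDef.one, ?_⟩
      simp [h1]
  · apply le_csInf
    · exact ⟨_, 1, Matrix.PosDef.one, rfl⟩
    · rintro c ⟨b, hb, rfl⟩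
      rw [one_le_div (Pool.Agent.helper16.GUE.det_re_pos hb)]
      exact Pool.Agent.helper16.GUE.det_ge_of_ds a h1 h2 b hb

theorem cap_empty [IsEmpty κ] (a : ν → Matrix κ κ ℂ) : cap a = 1 := by
  unfold cap
  have : {c : ℝ | ∃ b : Matrix κ κ ℂ, b.PosDef ∧ c = (∑ i, a i * b * (a i)ᴴ).det.re / b.det.re}
      = {1} := by
    ext c
    simp only [Set.mem_ofPred_eq, Set.mem_singleton_iff, Matrix.det_isEmpty, Complex.one_re,
      div_one]
    constructor
    · rintro ⟨b, -, h⟩; exact h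
    · intro h; exact ⟨1, Matrix.PosDef.one, h⟩
  rw [this, csInf_singleton]

/-- irreducibility is invariant under multiplication by invertible matrices -/
theorem irr_mul_mul (a : ν → Matrix κ κ ℂ) (ha : Irr a) (p q : Matrix κ κ ℂ)
    (hp : IsUnit p.det) (hq : IsUnit q.det) : Irr (fun i => p * a i * q) := by
  have hpe : ∃ P : (κ → ℂ) ≃ₗ[ℂ] (κ → ℂ), (P : (κ → ℂ) →ₗ[ℂ] (κ → ℂ)) = Matrix.toLin' p :=
    ⟨LinearEquiv.ofIsUnitDet (f := Matrix.toLin' p) (v := Pi.basisFun ℂ κ) (v' := Pi.basisFun ℂ κ)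
      (by rw [← Matrix.toLin_eq_toLin', LinearMap.toMatrix_toLin]; exact hp), rfl⟩
  have hqe : ∃ Q : (κ → ℂ) ≃ₗ[ℂ] (κ → ℂ), (Q : (κ → ℂ) →ₗ[ℂ] (κ → ℂ)) = Matrix.toLin' q :=
    ⟨LinearEquiv.ofIsUnitDet (f := Matrix.toLin' q) (v := Pi.basisFun ℂ κ) (v' := Pi.basisFun ℂ κ)
      (by rw [← Matrix.toLin_eq_toLin', LinearMap.toMatrix_toLin]; exact hq), rfl⟩
  obtain ⟨P, hP⟩ := hpe
  obtain ⟨Q, hQ⟩ := hqe
  have key : ∀ V : Submodule ℂ (κ → ℂ),
      (⨆ i, V.map (Matrix.toLin' (p * a i * q)) : Submodule ℂ (κ → ℂ))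
      = (⨆ i, (V.map (Q : (κ → ℂ) →ₗ[ℂ] (κ → ℂ))).map (Matrix.toLin' (a i)) :
          Submodule ℂ (κ → ℂ)).map (P : (κ → ℂ) →ₗ[ℂ] (κ → ℂ)) := by
    intro V
    rw [Submodule.map_iSup]
    congr 1
    ext1 i
    rw [hP, hQ, ← Submodule.map_comp, ← Submodule.map_comp, ← Matrix.toLin'_mul,
      ← Matrix.toLin'_mul, Matrix.mul_assoc]
  have hfin : ∀ (W : Submodule ℂ (κ → ℂ)) (T : (κ → ℂ) ≃ₗ[ℂ] (κ → ℂ)),
      Module.finrank ℂ (W.map (T : (κ → ℂ) →ₗ[ℂ] (κ → ℂ))) = Module.finrank ℂ W := by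
    intro W T
    exact LinearEquiv.finrank_map_eq T W
  refine ⟨fun V => ?_, fun V hV0 hV1 => ?_⟩
  · rw [key, hfin, ← hfin V Q]
    exact ha.1 _
  · rw [key, hfin, ← hfin V Q]
    apply ha.2
    · intro h; apply hV0
      exact (Submodule.map_eq_bot_iff (e := Q) (p := V)).1 h
    · intro h; apply hV1
      have := congrArg (Submodule.map (Q.symm : (κ → ℂ) →ₗ[ℂ] (κ → ℂ))) h
      rw [← Submodule.map_comp] at this
      simpa using this

/-- (F) -/
theorem law_all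
    (hDS : ∀ (κ ν : Type) [Fintype κ] [DecidableEq κ] [Fintype ν] [DecidableEq ν] [Nonempty κ]
      (a : ν → Matrix κ κ ℂ), Irr a → ∑ i, a i * (a i)ᴴ = 1 → ∑ i, (a i)ᴴ * a i = 1 →
      LawT a (-(Fintype.card κ : ℝ) / 2))
    (κ ν : Type) [Fintype κ] [DecidableEq κ] [Fintype ν] [DecidableEq ν]
    (a : ν → Matrix κ κ ℂ) (ha : RND a) :
    0 < cap a ∧ LawT a ((1 / 2) * Real.log (cap a) - (Fintype.card κ : ℝ) / 2) := by
  induction hd : Fintype.card κ using Nat.strong_induction_on generalizing κ with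
  | _ d ih =>
  rcases isEmpty_or_nonempty κ with hκ | hκ
  · rw [cap_empty]
    refine ⟨one_pos, ?_⟩
    have hd0 : d = 0 := by rw [← hd]; exact Fintype.card_eq_zero
    subst hd0
    intro δ hδ
    refine ⟨0, Eventually.of_forall fun N => ?_⟩
    have : {ξ : Idx ν N → ℝ | ¬ (Real.exp (N * ((1 / 2) * Real.log 1 - ((0 : ℕ) : ℝ) / 2 - δ))
        ≤ ‖(ksum a (gue N fun c => (ξ c : ℂ))).det‖ ∧
        ‖(ksum a (gue N fun c => (ξ c : ℂ))).det‖
          ≤ Real.exp (N * ((1 / 2) * Real.log 1 - ((0 : ℕ) : ℝ) / 2 + δ)))} = ∅ := by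
      ext ξ
      simp only [Set.mem_ofPred_eq, Set.mem_empty_iff_false, iff_false, not_not,
        Matrix.det_isEmpty, norm_one]
      constructor
      · rw [Real.exp_le_one_iff]
        simp only [Real.log_one]
        have : (0 : ℝ) ≤ N := by positivity
        norm_num
        positivity
      · apply Real.one_le_exp
        simp only [Real.log_one]
        norm_num
        positivity
    rw [this]
    simp
  · rcases Pool.Agent.helper75.RndBlock.irr_or_block a ha with hirr | hblock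
    · obtain ⟨p, q, hp, hq, h1, h2⟩ := Pool.Agent.helper16.GUE.exists_scaling a hirr
      have hL := hDS κ ν (fun i => p * a i * q) (irr_mul_mul a hirr p q hp hq) h1 h2
      have hc := cap_ds _ h1 h2
      rw [Pool.Agent.helper16.GUE.cap_mul a p q hp hq] at hc
      have hp0 : 0 < ‖p.det‖ := norm_pos_iff.2 hp.ne_zero
      have hq0 : 0 < ‖q.det‖ := norm_pos_iff.2 hq.ne_zero
      have hcap : cap a = ((‖p.det‖ * ‖q.det‖) ^ 2)⁻¹ := by
        apply eq_inv_of_mul_eq_one_left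
        rw [← hc]; ring
      refine ⟨by rw [hcap]; positivity, ?_⟩
      have hS := LawT_scale (a := a) (a' := fun i => p * a i * q) (mul_pos hp0 hq0)
        (fun N X => det_ksum_mul_mul a p q X) hL
      convert hS using 1
      rw [hcap, Real.log_inv, Real.log_pow, hd]
      push_cast; ring
    · obtain ⟨κ₁, κ₂, _, _, _, _, e, p, q, a₁, b, a₂, hp, hq, hc1, hc2, hr1, hr2, hb⟩ := hblock
      obtain ⟨i1, L1⟩ := ih _ (by rw [← hd]; exact hc1) κ₁ a₁ hr1 rfl
      obtain ⟨i2, L2⟩ := ih _ (by rw [← hd]; exact hc2) κ₂ a₂ hr2 rfl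
      have hp0 : 0 < ‖p.det‖ := norm_pos_iff.2 hp.ne_zero
      have hq0 : 0 < ‖q.det‖ := norm_pos_iff.2 hq.ne_zero
      have hcap : ‖p.det‖ ^ 2 * ‖q.det‖ ^ 2 * cap a = cap a₁ * cap a₂ := by
        rw [← Pool.Agent.helper16.GUE.cap_mul a p q hp hq, ← cap_reindex e]
        simp_rw [hb]
        exact Pool.Agent.helper16.GUE.cap_fromBlocks a₁ b a₂
      have hcap' : cap a = cap a₁ * cap a₂ * ((‖p.det‖ * ‖q.det‖) ^ 2)⁻¹ := by
        rw [← hcap]; field_simp
      refine ⟨by rw [hcap']; positivity, ?_⟩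
      have hM : LawT (fun i => p * a i * q) _ := LawT_mul (a := fun i => p * a i * q)
        (fun N X => by
          rw [← norm_mul, ← det_ksum_fromBlocks a₁ b a₂ X]
          have : (fun i => Matrix.fromBlocks (a₁ i) (b i) 0 (a₂ i))
              = fun i => (p * a i * q).reindex e e := by ext1 i; rw [hb]
          rw [this, ksum_reindex, Matrix.det_reindex_self]) L1 L2
      have hS := LawT_scale (a := a) (a' := fun i => p * a i * q) (mul_pos hp0 hq0)
        (fun N X => det_ksum_mul_mul a p q X) hM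
      convert hS using 1
      have hcard : Fintype.card κ = Fintype.card κ₁ + Fintype.card κ₂ := by
        rw [Fintype.card_congr e, Fintype.card_sum]
      rw [hcap', Real.log_mul (by positivity) (by positivity), Real.log_mul i1.ne' i2.ne',
        Real.log_inv, Real.log_pow, ← hd, hcard]
      push_cast; ring

end Pool.Agent.helper97.GUE
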